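import Pool.Agent.R112.EN.Stm

/-!
Project EN (MP_d1da17_co), piece A: the Eliahou number in terms of Apery elements.
-/

set_option autoImplicit false

namespace Pool.Agent.R112.EN

open Finset

namespace PieceA

theorem lt_pp {m c a i : ℕ} (hm : 0 < m) : i < pp m c a ↔ a + i * m < c := by
  unfold pp
  rw [Nat.lt_iff_add_one_le, Nat.le_div_iff_mul_le hm, Nat.add_mul, one_mul]
  omega

theorem pp_zero_of_le {m c a : ℕ} (hm : 0 < m) (h : c ≤ a) : pp m c a = 0 := by
  by_contra h0
  have := (lt_pp (m := m) (c := c) (a := a) (i := 0) hm).1 (Nat.pos_of_ne_zero h0)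
  omega

theorem m_mem (m c : ℕ) (G : Finset ℕ) : m ∈ Sg m c G :=
  AddSubmonoid.subset_closure (Set.mem_insert _ _)

theorem c_mem (m c : ℕ) (G : Finset ℕ) (x : ℕ) (h : c ≤ x) : x ∈ Sg m c G :=
  AddSubmonoid.subset_closure (Set.mem_insert_of_mem _ (Or.inr h))

end PieceA

open PieceA Classical in
theorem sA (h1 : S_AP) (h2 : S_IND) : S_A := by
  intro m c G hG
  have hm0 := hG.hm
  have hmc := hG.mc
  set S := Sg m c G with hS
  obtain ⟨a1, a2, a3, a4, a5⟩ := h1 m c S hm0 (m_mem m c G) (c_mem m c G)
  obtain ⟨b1, b2, b3⟩ := h2 m c G hG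
  set A : Finset ℕ := (range (c + m)).filter (fun x => Ap m S x) with hA
  have memA : ∀ x, x ∈ A ↔ Ap m S x := by
    intro x
    rw [hA, mem_filter, mem_range]
    exact ⟨fun h => h.2, fun h => ⟨a2 x h, h⟩⟩
  -- (1) the number of Apery elements
  have cardA : A.card = m := by
    have : A.card = (range m).card := by
      refine Finset.card_bij (fun x _ => x % m) ?_ ?_ ?_
      · intro a _
        rw [mem_range]
        exact Nat.mod_lt _ hm0
      · intro a ha b hb h
        exact a3 a b ((memA a).1 ha) ((memA b).1 hb) h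
      · intro i hi
        rw [mem_range] at hi
        obtain ⟨a, ha, hai, -⟩ := a1 i
        refine ⟨a, (memA a).2 ha, ?_⟩
        have : a % m = i % m := hai
        rw [this, Nat.mod_eq_of_lt hi]
    rw [this, card_range]
  -- (2) the number of small elements
  have hkk : kk c S = ∑ a ∈ A, pp m c a := by
    have e : ∑ a ∈ A, pp m c a = (A.sigma (fun a => range (pp m c a))).card := by
      rw [card_sigma]
      simp
    rw [e]
    unfold kk
    symm
    refine Finset.card_bij (fun p _ => p.1 + p.2 * m) ?_ ?_ ?_
    · rintro ⟨a, i⟩ h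
      rw [mem_sigma, mem_range] at h
      simp only at h ⊢
      rw [mem_filter, mem_range]
      have ha := (memA a).1 h.1
      refine ⟨(lt_pp hm0).1 h.2, ?_⟩
      have : i * m ∈ S := by
        have := AddSubmonoid.nsmul_mem S (m_mem m c G) i
        simpa using this
      exact AddSubmonoid.add_mem S ha.1 this
    · rintro ⟨a, i⟩ h ⟨a', i'⟩ h' he
      rw [mem_sigma] at h h'
      simp only at h h' he
      have h3 : a ≡ a' [MOD m] := by
        have := congrArg (· % m) he
        simpa [Nat.ModEq] using this
      have h4 := a3 a a' ((memA a).1 h.1) ((memA a').1 h'.1) h3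
      subst h4
      have h5 : i = i' := Nat.eq_of_mul_eq_mul_right hm0 (by omega)
      subst h5
      rfl
    · intro x hx
      rw [mem_filter, mem_range] at hx
      obtain ⟨a, ha, hax, hle⟩ := a1 x
      have hle' := hle hx.2
      obtain ⟨i, hi⟩ := (Nat.modEq_iff_dvd' hle').1 hax
      have hx' : a + i * m = x := by rw [mul_comm i m, ← hi]; omega
      refine ⟨⟨a, i⟩, ?_, hx'⟩
      rw [mem_sigma, mem_range]
      exact ⟨(memA a).2 ha, (lt_pp hm0).2 (by simp only; rw [hx']; exact hx.1)⟩
  -- (3) decomposition
  set R : Finset ℕ := (Ico c (c + m)).filter (fun x => ¬ Dec S x) with hR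
  have dec0 : ¬ Dec S 0 := by
    rintro ⟨a, _, b, _, ha, _, hab⟩
    omega
  have hdecomp : A = insert 0 (G ∪ (WW m c G ∪ R)) := by
    ext x
    rw [memA, mem_insert, mem_union, mem_union]
    constructor
    · intro hx
      by_cases h0 : x = 0
      · exact Or.inl h0
      · right
        by_cases hd : Dec S x
        · right; left
          rw [WW, mem_filter, mem_range]
          exact ⟨a2 x hx, hx, hd⟩
        · rcases b1 x hx h0 hd with h | h
          · exact Or.inl h
          · right; right
            rw [hR, mem_filter, mem_Ico]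
            exact ⟨⟨h, a2 x hx⟩, hd⟩
    · rintro (rfl | h | h | h)
      · exact ⟨AddSubmonoid.zero_mem S, fun y _ h => by omega⟩
      · exact b2 x h
      · rw [WW, mem_filter] at h
        exact h.2.1
      · rw [hR, mem_filter, mem_Ico] at h
        refine ⟨c_mem m c G x h.1.1, fun y hy he => ?_⟩
        by_cases hy0 : y = 0
        · omega
        · exact h.2 ⟨y, hy, m, m_mem m c G, hy0, hm0.ne', he⟩
  have d1 : (0 : ℕ) ∉ G ∪ (WW m c G ∪ R) := by
    rw [mem_union, mem_union]
    rintro (h | h | h)
    · have := hG.lo 0 h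
      omega
    · rw [WW, mem_filter] at h
      exact dec0 h.2.2
    · rw [hR, mem_filter, mem_Ico] at h
      omega
  have d2 : Disjoint G (WW m c G ∪ R) := by
    rw [Finset.disjoint_left]
    intro x hx h
    rw [mem_union] at h
    rcases h with h | h
    · rw [WW, mem_filter] at h
      exact hG.prg x hx h.2.2
    · rw [hR, mem_filter, mem_Ico] at h
      have := hG.hi x hx
      omega
  have d3 : Disjoint (WW m c G) R := by
    rw [Finset.disjoint_left]
    intro x hx h
    rw [WW, mem_filter] at hx
    rw [hR, mem_filter] at h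
    exact h.2 hx.2.2
  -- (4) sums
  have hcard : m = 1 + (G.card + ((WW m c G).card + R.card)) := by
    conv_lhs => rw [← cardA, hdecomp]
    rw [card_insert_of_notMem d1, card_union_of_disjoint d2, card_union_of_disjoint d3]
    omega
  have hsum : kk c S = qq m c + (∑ g ∈ G, pp m c g + ∑ w ∈ WW m c G, pp m c w) := by
    rw [hkk, hdecomp, sum_insert d1, sum_union d2, sum_union d3]
    have hR0 : ∑ x ∈ R, pp m c x = 0 := by
      refine sum_eq_zero fun x hx => ?_
      rw [hR, mem_filter, mem_Ico] at hx
      exact pp_zero_of_le hm0 hx.1.1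
    have hq : pp m c 0 = qq m c := by
      unfold pp qq
      rw [Nat.sub_zero]
    rw [hR0, hq, add_zero]
  have hrr : rr m c S = R.card := rfl
  -- (5) algebra
  unfold El EE
  rw [hrr, hsum]
  have hcard' : (m : ℤ) = 1 + ((G.card : ℤ) + ((WW m c G).card + R.card)) := by exact_mod_cast hcard
  have : (qq m c : ℤ) * m = (qq m c : ℤ) * (1 + ((G.card : ℤ) + ((WW m c G).card + R.card))) := by
    rw [← hcard']
  rw [this]
  push_cast
  ring

end Pool.Agent.R112.EN
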