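import Mathlib

/-!
Project EN (MP_d1da17_co): Eliahou number under adjoining large left generators.
Exact statements of the pieces.
-/

namespace Pool.Agent.R112.EN

open Finset

/-- the numerical semigroup generated by `m`, the elements of `G` and all integers `≥ c` -/
def Sg (m c : ℕ) (G : Finset ℕ) : AddSubmonoid ℕ :=
  AddSubmonoid.closure (insert m ((G : Set ℕ) ∪ {x : ℕ | c ≤ x}))

/-- `x` is a sum of two nonzero elements of `S` -/
def Dec (S : AddSubmonoid ℕ) (x : ℕ) : Prop := ∃ a ∈ S, ∃ b ∈ S, a ≠ 0 ∧ b ≠ 0 ∧ a + b = x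

/-- `q = ⌈c/m⌉` -/
def qq (m c : ℕ) : ℕ := (c + m - 1) / m

open Classical in
/-- number of elements of `S` below `c` -/
noncomputable def kk (c : ℕ) (S : AddSubmonoid ℕ) : ℕ := ((range c).filter (· ∈ S)).card

open Classical in
/-- number of elements of `[c,c+m)` that are not sums of two nonzero elements of `S` -/
noncomputable def rr (m c : ℕ) (S : AddSubmonoid ℕ) : ℕ :=
  ((Ico c (c + m)).filter (fun x => ¬ Dec S x)).card

/-- the Eliahou number `k ℓ + q r - c` -/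
noncomputable def El (m c : ℕ) (S : AddSubmonoid ℕ) (l : ℕ) : ℤ :=
  (kk c S : ℤ) * l + (qq m c : ℤ) * rr m c S - c

/-- listed generators `m` and `G`, all primitive, all `< c`, `m` the least -/
structure Good (m c : ℕ) (G : Finset ℕ) : Prop where
  hm : 0 < m
  mc : m < c
  lo : ∀ g ∈ G, m < g
  hi : ∀ g ∈ G, g < c
  prm : ¬ Dec (Sg m c G) m
  prg : ∀ g ∈ G, ¬ Dec (Sg m c G) g

/-- Apery element with respect to `m` -/
def Ap (m : ℕ) (S : AddSubmonoid ℕ) (x : ℕ) : Prop := x ∈ S ∧ ∀ y ∈ S, y + m ≠ x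

/-- `p(x) = ⌈(c-x)/m⌉` for `x ≤ c`, `0` for `x ≥ c` (the number of `x + i m < c`) -/
def pp (m c x : ℕ) : ℕ := (c - x + m - 1) / m

open Classical in
/-- the decomposable Apery elements (automatically nonzero and `< c + m`) -/
noncomputable def WW (m c : ℕ) (G : Finset ℕ) : Finset ℕ :=
  (range (c + m)).filter (fun x => Ap m (Sg m c G) x ∧ Dec (Sg m c G) x)

/-- the value of the Eliahou number in terms of Apery elements -/
noncomputable def EE (m c : ℕ) (G : Finset ℕ) : ℤ :=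
  ((G.card : ℤ) + 1) * (∑ g ∈ G, (pp m c g : ℤ)) + ((G.card : ℤ) + 1) * (∑ w ∈ WW m c G, (pp m c w : ℤ))
    - (qq m c : ℤ) * (WW m c G).card + ((qq m c : ℤ) * m - c)

/-- PIECE AP: basic facts on Apery elements of a submonoid containing `m` and all integers `≥ c`:
every `x` is congruent to an Apery element `a < c + m`; `x ∈ S` iff `a ≤ x`; Apery elements in one
class are equal. -/
def S_AP : Prop := ∀ (m c : ℕ) (S : AddSubmonoid ℕ), 0 < m → m ∈ S → (∀ x, c ≤ x → x ∈ S) →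
  (∀ x, ∃ a, Ap m S a ∧ a ≡ x [MOD m] ∧ (x ∈ S → a ≤ x)) ∧
  (∀ a, Ap m S a → a < c + m) ∧
  (∀ a b, Ap m S a → Ap m S b → a ≡ b [MOD m] → a = b) ∧
  (∀ a x, Ap m S a → a ≡ x [MOD m] → (x ∈ S ↔ a ≤ x)) ∧
  (∀ a x y, Ap m S a → x ∈ S → y ∈ S → x + y = a → Ap m S x ∧ Ap m S y)

/-- PIECE IND: an indecomposable nonzero Apery element is in `G` or `≥ c`; members of `G` are Apery -/
def S_IND : Prop := ∀ (m c : ℕ) (G : Finset ℕ), Good m c G →
  (∀ a, Ap m (Sg m c G) a → a ≠ 0 → ¬ Dec (Sg m c G) a → a ∈ G ∨ c ≤ a) ∧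
  (∀ g ∈ G, Ap m (Sg m c G) g) ∧ (∀ x ∈ Sg m c G, x ≠ 0 → m ≤ x)

/-- PIECE A: the Eliahou number in terms of Apery elements -/
def S_A : Prop := ∀ (m c : ℕ) (G : Finset ℕ), Good m c G →
  El m c (Sg m c G) (G.card + 1) = EE m c G

/-- the hypotheses of one step: `δ` is adjoined to `G` -/
structure Step (m c : ℕ) (G : Finset ℕ) (δ : ℕ) : Prop where
  g0 : Good m c G
  g1 : Good m c (insert δ G)
  ne : G.Nonempty
  lt : ∀ g ∈ G, g < δ
  big : ∀ g ∈ G, c + m ≤ δ + 2 * g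

/-- PIECE CLS: a decomposable Apery element of `T'` which is not one of `T` is `δ + x` -/
def S_CLS : Prop := ∀ (m c : ℕ) (G : Finset ℕ) (δ : ℕ), Step m c G δ →
  ∀ w ∈ WW m c (insert δ G), w ∉ WW m c G → ∃ x ∈ insert δ G, δ + x = w

/-- PIECE PAIR: pairs of elements of `H` (loops allowed) -/
def S_PAIR : Prop := ∀ (H : Finset ℕ) (Q : Finset (Multiset ℕ)) (p : ℕ → ℕ),
  (∀ s ∈ Q, s.card = 2 ∧ ∀ x ∈ s, x ∈ H) →
  (∑ s ∈ Q, (s.map p).sum) ≤ (H.card + 1) * ∑ x ∈ H, p x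

/-- PIECE B: comparison of the Apery sets of `T = Sg m c G` and `T' = Sg m c (insert δ G)`. -/
def S_B : Prop := ∀ (m c : ℕ) (G : Finset ℕ) (δ : ℕ), Step m c G δ →
  ∃ (P j b e : ℕ) (X : Finset ℕ), X ⊆ G ∧ 1 ≤ j ∧ b ≤ 1 ∧ e ≤ 1 ∧ (b = 0 → P = 0) ∧
    pp m c δ = P + j ∧
    (∑ w ∈ WW m c G, pp m c w) ≤ (∑ w ∈ WW m c (insert δ G), pp m c w) + P ∧
    (∑ w ∈ WW m c G ∩ WW m c (insert δ G), pp m c w) + P ≤ (∑ w ∈ WW m c G, pp m c w) ∧
    (WW m c (insert δ G)).card + b = (WW m c G).card + X.card + e ∧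
    (∀ x ∈ X, qq m c ≤ pp m c x + (P + j) + 1) ∧
    (e = 1 → 2 * δ < c + m) ∧
    (∀ x ∈ X, ∀ y, y + x < c + m → P ≤ pp m c y)

/-- the correction `v(w) ∈ {0,1}`: it is `1` iff `(w + ρ) mod m ≥ m - ρ`, `ρ = q m - c` -/
def vv (m c w : ℕ) : ℕ :=
  if m ≤ (w + (qq m c * m - c)) % m + (qq m c * m - c) then 1 else 0

/-- PIECE V1: the `n`-sum inequality, `n = card s ≥ 2` -/
def S_V1 : Prop := ∀ (m c : ℕ), 0 < m → m < c → ∀ s : Multiset ℕ, 2 ≤ s.card → s.sum < c + m →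
  qq m c + (s.card - 1) * pp m c s.sum ≤
    (s.map (fun x => pp m c (s.sum - x))).sum + (s.card - 2) + vv m c s.sum

/-- PIECE V2: the corrections sum to at most `ρ` on a set of pairwise incongruent numbers -/
def S_V2 : Prop := ∀ (m c : ℕ), 0 < m → m < c → ∀ W : Finset ℕ,
  (∀ x ∈ W, ∀ y ∈ W, x ≡ y [MOD m] → x = y) →
  (∑ w ∈ W, vv m c w) ≤ qq m c * m - c

/-- PIECE FAC: greedy factorisations of decomposable Apery elements into elements of `G` -/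
def S_FAC : Prop := ∀ (m c : ℕ) (G : Finset ℕ), Good m c G →
  ∃ f : ℕ → Multiset ℕ, ∀ w ∈ WW m c G,
    2 ≤ (f w).card ∧ (∀ x ∈ f w, x ∈ G) ∧ (f w).sum = w ∧
    (∀ x ∈ f w, 3 ≤ (f w).card → w - x ∈ WW m c G ∧ f (w - x) = (f w).erase x)

/-- PIECE C: lower bound for the Eliahou number of `T'` by a multicomplex `F` -/
def S_C : Prop := ∀ (m c : ℕ) (G : Finset ℕ) (δ : ℕ), Step m c G δ →
  ∃ F : Finset (Multiset ℕ),
    (∀ s ∈ F, 2 ≤ s.card ∧ (∀ x ∈ s, x ∈ G) ∧ s.sum < c + m) ∧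
    (∀ s ∈ F, 3 ≤ s.card → ∀ x ∈ s, s.erase x ∈ F) ∧
    (∑ s ∈ F, pp m c s.sum) ≤ (∑ w ∈ WW m c G ∩ WW m c (insert δ G), pp m c w) ∧
    (∑ s ∈ F, ((G.card : ℤ) + 1 + s.card) * (pp m c s.sum : ℤ)
      - ∑ s ∈ F.filter (fun s => 3 ≤ s.card),
          ((s.map (fun x => (pp m c (s.erase x).sum : ℤ))).sum + ((s.card : ℤ) - 2)))
      ≤ EE m c (insert δ G)

/-- number of extensions of `s` inside `F`, with multiplicity -/
def tt (G : Finset ℕ) (F : Finset (Multiset ℕ)) (s : Multiset ℕ) : ℕ :=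
  ∑ x ∈ G.filter (fun x => x ::ₘ s ∈ F), (s.count x + 1)

/-- the level `n` part of `F` -/
def lev (F : Finset (Multiset ℕ)) (n : ℕ) : Finset (Multiset ℕ) := F.filter (fun s => s.card = n)

/-- `F` is a multicomplex on `G` (only members of size `≥ 2` are recorded) -/
structure MC (G : Finset ℕ) (F : Finset (Multiset ℕ)) : Prop where
  mem : ∀ s ∈ F, 2 ≤ s.card ∧ ∀ x ∈ s, x ∈ G
  cl : ∀ s ∈ F, 3 ≤ s.card → ∀ x ∈ s, s.erase x ∈ F

/-- PIECE E0: double counting -/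
def S_E0 : Prop := ∀ (G : Finset ℕ) (F : Finset (Multiset ℕ)), MC G F →
  ∀ (n : ℕ), 2 ≤ n → ∀ f : Multiset ℕ → ℤ,
    ∑ s ∈ lev F (n + 1), (s.map (fun x => f (s.erase x))).sum = ∑ s ∈ lev F n, (tt G F s : ℤ) * f s

/-- PIECE E1: `t(s) ≤ |G| + |s|`, and `t(s) ≤ t'(s) + |s|` -/
def S_E1 : Prop := ∀ (G : Finset ℕ) (F : Finset (Multiset ℕ)) (s : Multiset ℕ),
  tt G F s ≤ (G.filter (fun x => x ::ₘ s ∈ F)).card + s.card

/-- PIECE E2: triangles versus edges: if there are few edges then `4 |F_3| ≤ (ℓ+2) h_2`,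
where `h_2` is the number of edges contained in a triangle. -/
def S_E2 : Prop := ∀ (G : Finset ℕ) (F : Finset (Multiset ℕ)), MC G F →
  ∀ (l h : ℕ), h = ((lev F 2).filter (fun s => 0 < tt G F s)).card →
    32 * h ≤ (3 * l - 2) * (3 * l + 3) → 1 ≤ l →
    4 * (lev F 3).card ≤ (l + 2) * h

/-- the numeric data of the hard case -/
structure HB (G : Finset ℕ) (F : Finset (Multiset ℕ)) (p : Multiset ℕ → ℕ)
    (l D K q P j e : ℕ) (X : Finset ℕ) : Prop where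
  hP : 1 ≤ P
  hj : 1 ≤ j
  hD : D = P + j
  he : e ≤ 1
  hX : X ⊆ G
  hK : K + P + 2 * j + (1 - e) * q + 1 + (G \ X).card * (P + 1 + j) ≤ (P + 1) * (l - 1)
  hXp : ∀ x ∈ X, ∀ s ∈ F, x ::ₘ s ∈ F → P ≤ p s
  h4 : e = 1 → ∀ s ∈ F, s.card ≤ 3

/-- the common hypotheses of the combinatorial inequality -/
structure Core (G : Finset ℕ) (F : Finset (Multiset ℕ)) (p : Multiset ℕ → ℕ)
    (l D K q : ℕ) : Prop where
  mc : MC G F
  hl : G.card + 1 = l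
  l2 : 2 ≤ l
  hD : 2 ≤ D
  lowp : ∀ s ∈ F, ∀ u : Multiset ℕ, 1 ≤ u.card → s + u ∈ F → u.card * D / 2 ≤ p s
  sumK : ∑ s ∈ F, p s ≤ K
  hq : ∀ s ∈ F, s.card * D / 2 ≤ q

/-- PIECE E3: in both cases few edges -/
def S_E3 : Prop := ∀ (G : Finset ℕ) (F : Finset (Multiset ℕ)) (p : Multiset ℕ → ℕ) (l D K q : ℕ),
  Core G F p l D K q →
  (K + 1 ≤ l ∨ ∃ (P j e : ℕ) (X : Finset ℕ), HB G F p l D K q P j e X) →
  32 * ((lev F 2).filter (fun s => 0 < tt G F s)).card ≤ (3 * l - 2) * (3 * l + 3)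

/-- PIECE E4: the level `n ≥ 3` inequality is true pointwise -/
def S_E4 : Prop := ∀ (G : Finset ℕ) (F : Finset (Multiset ℕ)) (p : Multiset ℕ → ℕ) (l D K q : ℕ),
  Core G F p l D K q →
  (K + 1 ≤ l ∨ ∃ (P j e : ℕ) (X : Finset ℕ), HB G F p l D K q P j e X) →
  ∀ s ∈ F, 3 ≤ s.card →
    (s.card - 1) * tt G F s + (s.card + 1) * (tt G F s * p s) ≤ (s.card + 1) * ((l + s.card) * p s)

/-- PIECE E5: the combinatorial inequality -/
def S_E5 : Prop := ∀ (G : Finset ℕ) (F : Finset (Multiset ℕ)) (p : Multiset ℕ → ℕ) (l D K q : ℕ),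
  Core G F p l D K q →
  (K + 1 ≤ l ∨ ∃ (P j e : ℕ) (X : Finset ℕ), HB G F p l D K q P j e X) →
  0 ≤ ∑ s ∈ F, ((l : ℤ) + s.card) * (p s : ℤ)
      - ∑ s ∈ F.filter (fun s => 3 ≤ s.card),
          ((s.map (fun x => (p (s.erase x) : ℤ))).sum + ((s.card : ℤ) - 2))

/-- PIECE S: one step -/
def S_STEP : Prop := ∀ (m c : ℕ) (G : Finset ℕ) (δ : ℕ), Step m c G δ →
  0 ≤ EE m c G → 0 ≤ EE m c (insert δ G)

end Pool.Agent.R112.EN
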