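import Mathlib
import Pool.Agent.R112.EN.Stm

/-! Project EN: pieces AP and IND. -/

set_option autoImplicit false

namespace Pool.Agent.R112.EN

open Finset

theorem ap : S_AP := by
  classical
  intro m c S hm hmS hcS
  have hmul : ∀ k : ℕ, k * m ∈ S := by
    intro k
    induction k with
    | zero => simp
    | succ k ih => rw [add_mul, one_mul]; exact S.add_mem ih hmS
  have h2 : ∀ a, Ap m S a → a < c + m := by
    intro a ha
    by_contra hc
    exact ha.2 (a - m) (hcS _ (by omega)) (by omega)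
  -- same class
  have hcls : ∀ a x, Ap m S a → a ≡ x [MOD m] → x ∈ S → a ≤ x := by
    intro a x ha hax hx
    by_contra hc
    push Not at hc
    obtain ⟨t, ht⟩ := (Nat.modEq_iff_dvd' hc.le).1 hax.symm
    have ht1 : 1 ≤ t := by
      rcases Nat.eq_zero_or_pos t with h | h
      · subst h; omega
      · exact h
    refine ha.2 (x + (t - 1) * m) (S.add_mem hx (hmul _)) ?_
    have h3 : (t - 1) * m + m = m * t := by
      rw [← Nat.succ_mul, Nat.succ_eq_add_one, Nat.sub_add_cancel ht1, mul_comm]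
    omega
  have hup : ∀ a x, Ap m S a → a ≡ x [MOD m] → a ≤ x → x ∈ S := by
    intro a x ha hax hle
    obtain ⟨t, ht⟩ := (Nat.modEq_iff_dvd' hle).1 hax
    have h3 : x = a + t * m := by
      rw [mul_comm] at ht
      omega
    rw [h3]
    exact S.add_mem ha.1 (hmul t)
  refine ⟨?_, h2, ?_, ?_, ?_⟩
  · intro x
    have hex : ∃ y, y ∈ S ∧ y ≡ x [MOD m] := by
      refine ⟨x + c * m, hcS _ ?_, ?_⟩
      · have : c ≤ c * m := Nat.le_mul_of_pos_right _ hm
        omega
      · exact (Nat.ModEq.symm (by simp [Nat.ModEq]))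
    obtain ⟨hS, hmod⟩ := Nat.find_spec hex
    refine ⟨Nat.find hex, ⟨hS, ?_⟩, hmod, fun hx => Nat.find_min' hex ⟨hx, rfl⟩⟩
    intro y hy hyx
    refine Nat.find_min hex (m := y) (by omega) ⟨hy, ?_⟩
    refine Nat.ModEq.trans ?_ hmod
    rw [← hyx]
    simp [Nat.ModEq]
  · intro a b ha hb hab
    exact le_antisymm (hcls a b ha hab hb.1) (hcls b a hb hab.symm ha.1)
  · intro a x ha hax
    exact ⟨hcls a x ha hax, hup a x ha hax⟩
  · intro a x y ha hx hy hxy
    refine ⟨⟨hx, fun z hz hzx => ?_⟩, ⟨hy, fun z hz hzy => ?_⟩⟩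
    · exact ha.2 (z + y) (S.add_mem hz hy) (by omega)
    · exact ha.2 (x + z) (S.add_mem hx hz) (by omega)

theorem ind : S_IND := by
  classical
  intro m c G hG
  have hgen : ∀ x ∈ insert m ((G : Set ℕ) ∪ {x : ℕ | c ≤ x}), m ≤ x := by
    intro x hx
    rcases hx with rfl | hx | hx
    · exact le_rfl
    · exact (hG.lo x hx).le
    · have := hG.mc
      have h1 : c ≤ x := hx
      omega
  have h3 : ∀ x ∈ Sg m c G, x ≠ 0 → m ≤ x := by
    intro x hx
    refine AddSubmonoid.closure_induction (motive := fun x _ => x ≠ 0 → m ≤ x) ?_ ?_ ?_ hx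
    · intro x hx _
      exact hgen x hx
    · intro h; exact absurd rfl h
    · intro x y _ _ h1 h2 h
      by_cases hx0 : x = 0
      · subst hx0
        rw [zero_add] at h ⊢
        exact h2 h
      · have := h1 hx0
        omega
  have hmem : m ∈ Sg m c G := AddSubmonoid.subset_closure (Set.mem_insert _ _)
  have hm := hG.hm
  refine ⟨?_, ?_, h3⟩
  · intro a ha ha0 hnd
    have key : ∀ x ∈ Sg m c G, x = 0 ∨ Dec (Sg m c G) x ∨ x = m ∨ x ∈ G ∨ c ≤ x := by
      intro x hx
      refine AddSubmonoid.closure_induction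
        (motive := fun x _ => x = 0 ∨ Dec (Sg m c G) x ∨ x = m ∨ x ∈ G ∨ c ≤ x) ?_ ?_ ?_ hx
      · intro x hx
        rcases hx with rfl | hx | hx
        · exact Or.inr (Or.inr (Or.inl rfl))
        · exact Or.inr (Or.inr (Or.inr (Or.inl hx)))
        · exact Or.inr (Or.inr (Or.inr (Or.inr hx)))
      · exact Or.inl rfl
      · intro x y hx hy h1 h2
        by_cases hx0 : x = 0
        · subst hx0; rw [zero_add]; exact h2
        by_cases hy0 : y = 0
        · subst hy0; rw [add_zero]; exact h1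
        exact Or.inr (Or.inl ⟨x, hx, y, hy, hx0, hy0, rfl⟩)
    rcases key a ha.1 with h | h | h | h | h
    · exact absurd h ha0
    · exact absurd h hnd
    · exfalso
      exact ha.2 0 (Sg m c G).zero_mem (by omega)
    · exact Or.inl h
    · exact Or.inr h
  · intro g hg
    refine ⟨AddSubmonoid.subset_closure (Set.mem_insert_of_mem _ (Or.inl hg)), ?_⟩
    intro y hy hyg
    have := hG.lo g hg
    exact hG.prg g hg ⟨y, hy, m, hmem, by omega, by omega, hyg⟩

end Pool.Agent.R112.EN
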