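import Pool.Agent.R112.EN.C

/-!
Project EN (MP_d1da17_co), piece B.
-/

namespace Pool.Agent.R112.EN

open Finset

namespace BB

theorem pp_anti {m c x y : ℕ} (h : x ≤ y) : pp m c y ≤ pp m c x := by
  unfold pp
  apply Nat.div_le_div_right
  omega

theorem pp_zero {m c x : ℕ} (hm : 0 < m) (h : c ≤ x) : pp m c x = 0 := by
  unfold pp
  apply Nat.div_eq_of_lt
  omega

theorem pp_add {m c x j : ℕ} (hm : 0 < m) (hx : x < c) (h : x + j * m < c + m) :
    pp m c x = pp m c (x + j * m) + j := by
  by_cases h1 : x + j * m ≤ c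
  · unfold pp
    have : c - x + m - 1 = (c - (x + j * m) + m - 1) + m * j := by
      have : m * j = j * m := mul_comm _ _
      omega
    rw [this, Nat.add_mul_div_left _ _ hm]
  · rw [pp_zero hm (by omega : c ≤ x + j * m)]
    unfold pp
    have : c - x + m - 1 = (m - 1 - (x + j * m - c)) + m * j := by
      have : m * j = j * m := mul_comm _ _
      omega
    rw [this, Nat.add_mul_div_left _ _ hm, Nat.div_eq_of_lt (by omega)]

end BB

open CC BB

theorem sB (h1 : S_AP) (h2 : S_IND) (h4 : S_CLS) (h5 : S_V1) : S_B := by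
  classical
  intro m c G δ hst
  have hm := hst.g0.hm
  have hmc := hst.g0.mc
  have hδG : δ ∉ G := fun h => lt_irrefl _ (hst.lt δ h)
  have hδI : δ ∈ insert δ G := Finset.mem_insert_self _ _
  obtain ⟨t1, t2, t3, t4, -⟩ := h1 m c (Sg m c G) hm sg_m (fun x hx => sg_c hx)
  obtain ⟨u1, u2, u3, u4, -⟩ := h1 m c (Sg m c (insert δ G)) hm sg_m (fun x hx => sg_c hx)
  obtain ⟨i1, i2, i3⟩ := h2 m c G hst.g0
  obtain ⟨k1, k2, k3⟩ := h2 m c (insert δ G) hst.g1
  have hmono := sg_mono m c G δ
  have hδm : m < δ := hst.g1.lo δ hδI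
  have hδc : δ < c := hst.g1.hi δ hδI
  have hδAp := k2 δ hδI
  have hδDec := hst.g1.prg δ hδI
  have hδT : δ ∉ Sg m c G := by
    intro h
    have hAp : Ap m (Sg m c G) δ := ⟨h, fun y hy => hδAp.2 y (hmono hy)⟩
    rcases i1 δ hAp (by omega) (fun hd => hδDec (dec_mono hmono hd)) with h' | h'
    · exact hδG h'
    · omega
  obtain ⟨a0, ha0Ap, ha0c, -⟩ := t1 δ
  have ha0lt : δ < a0 := by
    by_contra hc
    exact hδT ((t4 a0 δ ha0Ap ha0c).2 (not_lt.1 hc))
  have ha0cm := t2 a0 ha0Ap
  obtain ⟨j, hj⟩ : ∃ j, a0 = δ + j * m := by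
    have := (Nat.modEq_iff_dvd' ha0lt.le).1 ha0c.symm
    obtain ⟨j, hj⟩ := this
    exact ⟨j, by rw [mul_comm]; omega⟩
  have hj1 : 1 ≤ j := by
    rcases Nat.eq_zero_or_pos j with h | h
    · subst h; simp at hj; omega
    · exact h
  have hppδ : pp m c δ = pp m c a0 + j := by
    rw [hj]; exact pp_add hm hδc (by rw [← hj]; exact ha0cm)
  have ha0WW' : a0 ∉ WW m c (insert δ G) := by
    intro h
    have := u3 a0 δ (mem_WW.1 h).2.1 hδAp ha0c
    omega
  have hP0 : a0 ∉ WW m c G → pp m c a0 = 0 := by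
    intro h
    have hnd : ¬ Dec (Sg m c G) a0 := fun hd => h (mem_WW.2 ⟨ha0cm, ha0Ap, hd⟩)
    rcases i1 a0 ha0Ap (by omega) hnd with h' | h'
    · have := hst.lt a0 h'
      omega
    · exact pp_zero hm h'
  -- the map `φ`
  choose φ hφ1 hφ2 hφ3 using u1
  have hφWW : ∀ w ∈ WW m c G, w ≠ a0 → φ w ∈ WW m c (insert δ G) := by
    intro w hw hwa
    obtain ⟨w1, w2, w3⟩ := mem_WW.1 hw
    have hle := hφ3 w (hmono w2.1)
    refine mem_WW.2 ⟨u2 _ (hφ1 w), hφ1 w, ?_⟩
    rcases hle.eq_or_lt with he | hlt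
    · rw [he]; exact dec_mono hmono w3
    · by_contra hnd
      have hnT : φ w ∉ Sg m c G := by
        intro h
        have := (t4 w (φ w) w2 (hφ2 w).symm).1 h
        omega
      have hn0 : φ w ≠ 0 := by
        intro h; apply hnT; rw [h]; exact AddSubmonoid.zero_mem _
      rcases k1 (φ w) (hφ1 w) hn0 hnd with h' | h'
      · rcases Finset.mem_insert.1 h' with h'' | h''
        · apply hwa
          refine t3 w a0 w2 ha0Ap ?_
          have e1 : w ≡ φ w [MOD m] := (hφ2 w).symm
          rw [h''] at e1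
          exact e1.trans ha0c.symm
        · exact hnT (sg_G h'')
      · have e1 := (Nat.modEq_iff_dvd' hlt.le).1 (hφ2 w)
        have e2 := Nat.le_of_dvd (by omega) e1
        omega
  have hφinj : Set.InjOn φ ((WW m c G).erase a0 : Finset ℕ) := by
    intro x hx y hy hxy
    have hx' := Finset.mem_of_mem_erase (Finset.mem_coe.1 hx)
    have hy' := Finset.mem_of_mem_erase (Finset.mem_coe.1 hy)
    refine t3 x y (mem_WW.1 hx').2.1 (mem_WW.1 hy').2.1 ?_
    have e1 := hφ2 x
    have e2 := hφ2 y
    rw [hxy] at e1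
    exact e1.symm.trans e2
  have himg : ((WW m c G).erase a0).image φ ⊆ WW m c (insert δ G) := by
    intro w hw
    obtain ⟨x, hx, rfl⟩ := Finset.mem_image.1 hw
    exact hφWW x (Finset.mem_of_mem_erase hx) (Finset.ne_of_mem_erase hx)
  -- the new elements
  let R : ℕ → Prop := fun x => δ + x ∈ WW m c (insert δ G) ∧
    ∀ w ∈ WW m c G, ¬ w ≡ δ + x [MOD m]
  have hpart : WW m c (insert δ G) = ((WW m c G).erase a0).image φ ∪
      ((insert δ G).filter R).image (fun x => δ + x) := by
    apply Finset.Subset.antisymm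
    · intro w' hw'
      by_cases hex : ∃ w ∈ WW m c G, w ≡ w' [MOD m]
      · obtain ⟨w, hw, hww⟩ := hex
        apply Finset.mem_union_left
        rw [Finset.mem_image]
        have hwa : w ≠ a0 := by
          rintro rfl
          have e1 : w' ≡ δ [MOD m] := hww.symm.trans ha0c
          have e2 := u3 w' δ (mem_WW.1 hw').2.1 hδAp e1
          subst e2
          exact hδDec (mem_WW.1 hw').2.2
        refine ⟨w, Finset.mem_erase.2 ⟨hwa, hw⟩, ?_⟩
        exact u3 _ _ (hφ1 w) (mem_WW.1 hw').2.1 ((hφ2 w).trans hww)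
      · apply Finset.mem_union_right
        push Not at hex
        have hnw : w' ∉ WW m c G := fun h => hex w' h (Nat.ModEq.refl _)
        obtain ⟨x, hx, hxw⟩ := h4 m c G δ hst w' hw' hnw
        rw [Finset.mem_image]
        refine ⟨x, Finset.mem_filter.2 ⟨hx, ?_, ?_⟩, hxw⟩
        · rw [hxw]; exact hw'
        · rw [hxw]; exact hex
    · apply Finset.union_subset himg
      intro w hw
      obtain ⟨x, hx, rfl⟩ := Finset.mem_image.1 hw
      exact (Finset.mem_filter.1 hx).2.1
  have hdisj : Disjoint (((WW m c G).erase a0).image φ)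
      (((insert δ G).filter R).image (fun x => δ + x)) := by
    rw [Finset.disjoint_left]
    intro w hw hw2
    obtain ⟨x, hx, rfl⟩ := Finset.mem_image.1 hw
    obtain ⟨y, hy, hyx⟩ := Finset.mem_image.1 hw2
    refine (Finset.mem_filter.1 hy).2.2 x (Finset.mem_of_mem_erase hx) ?_
    rw [hyx]
    exact (hφ2 x).symm
  have hcard : (WW m c (insert δ G)).card = ((WW m c G).erase a0).card
      + ((insert δ G).filter R).card := by
    conv_lhs => rw [hpart]
    rw [Finset.card_union_of_disjoint hdisj, Finset.card_image_of_injOn hφinj,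
      Finset.card_image_of_injective _ (fun a b hab => by simpa using hab)]
  have hcard2 : ((insert δ G).filter R).card = (G.filter R).card + (if R δ then 1 else 0) := by
    rw [Finset.filter_insert]
    split_ifs with h
    · rw [Finset.card_insert_of_notMem (fun h => hδG (Finset.mem_filter.1 h).1)]
    · rfl
  refine ⟨pp m c a0, j, if a0 ∈ WW m c G then 1 else 0, if R δ then 1 else 0, G.filter R,
    Finset.filter_subset _ _, hj1, ?_, ?_, ?_, hppδ, ?_, ?_, ?_, ?_, ?_, ?_⟩
  · split_ifs <;> omega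
  · split_ifs <;> omega
  · intro h
    split_ifs at h with h'
    exact hP0 h'
  · -- sum over WW
    have e1 : ∑ w ∈ (WW m c G).erase a0, pp m c w ≤ ∑ w ∈ WW m c (insert δ G), pp m c w := by
      calc ∑ w ∈ (WW m c G).erase a0, pp m c w ≤ ∑ w ∈ (WW m c G).erase a0, pp m c (φ w) := by
            apply Finset.sum_le_sum
            intro w hw
            apply pp_anti
            exact hφ3 w (hmono (mem_WW.1 (Finset.mem_of_mem_erase hw)).2.1.1)
        _ = ∑ w ∈ ((WW m c G).erase a0).image φ, pp m c w := (Finset.sum_image hφinj).symm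
        _ ≤ _ := Finset.sum_le_sum_of_subset himg
    by_cases h : a0 ∈ WW m c G
    · rw [← Finset.sum_erase_add _ _ h]
      omega
    · rw [Finset.erase_eq_of_notMem h] at e1
      omega
  · by_cases h : a0 ∈ WW m c G
    · rw [← Finset.sum_erase_add _ _ h]
      apply Nat.add_le_add_right
      apply Finset.sum_le_sum_of_subset
      intro w hw
      obtain ⟨w1, w2⟩ := Finset.mem_inter.1 hw
      refine Finset.mem_erase.2 ⟨?_, w1⟩
      rintro rfl
      exact ha0WW' w2
    · rw [hP0 h, add_zero]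
      exact Finset.sum_le_sum_of_subset Finset.inter_subset_left
  · rw [hcard, hcard2]
    by_cases h : a0 ∈ WW m c G
    · rw [if_pos h, Finset.card_erase_of_mem h]
      have : 1 ≤ (WW m c G).card := Finset.card_pos.2 ⟨a0, h⟩
      omega
    · rw [if_neg h, Finset.erase_eq_of_notMem h]
      omega
  · intro x hx
    obtain ⟨hxG, hxR⟩ := Finset.mem_filter.1 hx
    have e1 := h5 m c hm hmc (x ::ₘ {δ}) (by simp) (by
      have := (mem_WW.1 hxR.1).1
      simp only [Multiset.sum_cons, Multiset.sum_singleton]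
      omega)
    have e2 : vv m c (x ::ₘ ({δ} : Multiset ℕ)).sum ≤ 1 := by
      unfold vv; split_ifs <;> omega
    simp only [Multiset.card_cons, Multiset.card_singleton, Multiset.sum_cons,
      Multiset.sum_singleton, Multiset.map_cons, Multiset.map_singleton] at e1 e2
    have e3 : x + δ - x = δ := by omega
    have e4 : x + δ - δ = x := by omega
    rw [e3, e4, hppδ] at e1
    omega
  · intro h
    split_ifs at h with h'
    have := (mem_WW.1 h'.1).1
    omega
  · intro x hx y hxy
    obtain ⟨hxG, hxR⟩ := Finset.mem_filter.1 hx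
    have hclaim : c + m ≤ a0 + x := by
      by_contra hc
      push Not at hc
      obtain ⟨a, haAp, hac, hale⟩ := t1 (a0 + x)
      have hle := hale (AddSubmonoid.add_mem _ ha0Ap.1 (sg_G hxG))
      have hac2 : a ≡ δ + x [MOD m] := hac.trans (Nat.ModEq.add_right x ha0c)
      have hge : δ + x ≤ a :=
        (u4 (δ + x) a (mem_WW.1 hxR.1).2.1 hac2.symm).1 (hmono haAp.1)
      have hnW : a ∉ WW m c G := fun h => hxR.2 a h hac2
      have hnd : ¬ Dec (Sg m c G) a := fun hd => hnW (mem_WW.2 ⟨t2 a haAp, haAp, hd⟩)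
      rcases i1 a haAp (by omega) hnd with h' | h'
      · have := hst.lt a h'
        omega
      · rcases hle.eq_or_lt with he | hlt
        · apply hnd
          refine ⟨a0, ha0Ap.1, x, sg_G hxG, by omega, ?_, he.symm⟩
          have := hst.g0.lo x hxG
          omega
        · have e1 := (Nat.modEq_iff_dvd' hlt.le).1 hac
          have e2 := Nat.le_of_dvd (by omega) e1
          omega
    apply pp_anti
    omega

end Pool.Agent.R112.EN
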