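import Pool.Agent.R112.EN.Stm

/-!
Project EN (MP_d1da17_co), pieces PAIR, CLS and C.
-/

namespace Pool.Agent.R112.EN

open Finset

namespace CC

theorem sg_G {m c : ℕ} {G : Finset ℕ} {g : ℕ} (h : g ∈ G) : g ∈ Sg m c G :=
  AddSubmonoid.subset_closure (Or.inr (Or.inl h))

theorem sg_m {m c : ℕ} {G : Finset ℕ} : m ∈ Sg m c G :=
  AddSubmonoid.subset_closure (Or.inl rfl)

theorem sg_c {m c : ℕ} {G : Finset ℕ} {x : ℕ} (h : c ≤ x) : x ∈ Sg m c G :=
  AddSubmonoid.subset_closure (Or.inr (Or.inr h))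

theorem sg_mono (m c : ℕ) (G : Finset ℕ) (δ : ℕ) : Sg m c G ≤ Sg m c (insert δ G) := by
  apply AddSubmonoid.closure_mono
  rintro x (h | h | h)
  · exact Or.inl h
  · exact Or.inr (Or.inl (by
      simp only [Finset.coe_insert]
      exact Or.inr h))
  · exact Or.inr (Or.inr h)

theorem dec_mono {S S' : AddSubmonoid ℕ} (h : S ≤ S') {x : ℕ} (hx : Dec S x) : Dec S' x := by
  obtain ⟨a, ha, b, hb, h1, h2, h3⟩ := hx
  exact ⟨a, h ha, b, h hb, h1, h2, h3⟩

theorem mem_WW {m c : ℕ} {G : Finset ℕ} {w : ℕ} :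
    w ∈ WW m c G ↔ w < c + m ∧ Ap m (Sg m c G) w ∧ Dec (Sg m c G) w := by
  simp [WW]

theorem le_sum {s : Multiset ℕ} {x : ℕ} (h : x ∈ s) : x ≤ s.sum := by
  rw [← Multiset.cons_erase h, Multiset.sum_cons]; omega

theorem sum_erase {s : Multiset ℕ} {x : ℕ} (h : x ∈ s) : x + (s.erase x).sum = s.sum := by
  conv_rhs => rw [← Multiset.cons_erase h, Multiset.sum_cons]

theorem sum_mem_sg {m c : ℕ} {G : Finset ℕ} {s : Multiset ℕ} (h : ∀ x ∈ s, x ∈ G) :
    s.sum ∈ Sg m c G := by
  apply AddSubmonoid.multiset_sum_mem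
  intro x hx
  exact sg_G (h x hx)

end CC

open CC

theorem pair : S_PAIR := by
  intro H Q p hQ
  have h1 : ∀ s ∈ Q, (s.map p).sum = ∑ x ∈ H, s.count x * p x := by
    intro s hs
    have h2 : s.toFinset ⊆ H := by
      intro x hx
      exact (hQ s hs).2 x (Multiset.mem_toFinset.1 hx)
    rw [Finset.sum_multiset_map_count]
    simp only [smul_eq_mul]
    apply Finset.sum_subset h2
    intro x _ hx
    have : x ∉ s := fun h => hx (Multiset.mem_toFinset.2 h)
    rw [Multiset.count_eq_zero.2 this, zero_mul]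
  rw [Finset.sum_congr rfl h1, Finset.sum_comm, Finset.mul_sum]
  apply Finset.sum_le_sum
  intro x hx
  rw [← Finset.sum_mul]
  apply Nat.mul_le_mul_right
  have h3 : ∑ s ∈ Q, s.count x ≤ ∑ s ∈ H.image (fun y => x ::ₘ ({y} : Multiset ℕ)), s.count x := by
    rw [← Finset.sum_filter_add_sum_filter_not Q (fun s => x ∈ s)]
    have h4 : ∑ s ∈ Q with ¬ x ∈ s, s.count x = 0 := by
      apply Finset.sum_eq_zero
      intro s hs
      exact Multiset.count_eq_zero.2 (Finset.mem_filter.1 hs).2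
    rw [h4, add_zero]
    apply Finset.sum_le_sum_of_subset
    intro s hs
    obtain ⟨hs1, hs2⟩ := Finset.mem_filter.1 hs
    obtain ⟨h5, h6⟩ := hQ s hs1
    have h7 : (s.erase x).card = 1 := by
      rw [Multiset.card_erase_of_mem hs2, h5]; rfl
    obtain ⟨y, hy⟩ := Multiset.card_eq_one.1 h7
    rw [Finset.mem_image]
    have h8 : s = x ::ₘ {y} := by rw [← hy, Multiset.cons_erase hs2]
    refine ⟨y, h6 y ?_, h8.symm⟩
    rw [h8]; simp
  refine h3.trans ?_
  rw [Finset.sum_image (by
    intro a _ b _ hab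
    simpa using hab)]
  have h9 : ∀ y ∈ H, Multiset.count x (x ::ₘ ({y} : Multiset ℕ)) = 1 + if x = y then 1 else 0 := by
    intro y _
    rw [Multiset.count_cons_self, Multiset.count_singleton]
    ring
  rw [Finset.sum_congr rfl h9, Finset.sum_add_distrib]
  simp [hx]

theorem cls (h3 : S_FAC) (_h2 : S_IND) : S_CLS := by
  intro m c G δ hst w hw hnw
  obtain ⟨f, hf⟩ := h3 m c (insert δ G) hst.g1
  obtain ⟨hc2, hmem, hsum, -⟩ := hf w hw
  obtain ⟨hlt, hAp, hDec⟩ := mem_WW.1 hw
  have hpos : ∀ x ∈ insert δ G, m < x := hst.g1.lo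
  by_cases hδ : δ ∈ f w
  · by_cases h3c : 3 ≤ (f w).card
    · exfalso
      obtain ⟨γ, hγ, hγmin⟩ := Finset.exists_min_image G id hst.ne
      have hge : ∀ x ∈ f w, γ ≤ x := by
        intro x hx
        rcases Finset.mem_insert.1 (hmem x hx) with rfl | h
        · exact (hst.lt γ hγ).le
        · exact hγmin x h
      have hce : ((f w).erase δ).card • γ ≤ ((f w).erase δ).sum := by
        apply Multiset.card_nsmul_le_sum
        intro x hx
        exact hge x (Multiset.mem_of_mem_erase hx)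
      rw [Multiset.card_erase_of_mem hδ, smul_eq_mul] at hce
      have h5 := sum_erase hδ
      rw [hsum] at h5
      have h6 := hst.big γ hγ
      have h7 : 2 * γ ≤ ((f w).card.pred) * γ := by
        apply Nat.mul_le_mul_right
        rw [Nat.pred_eq_sub_one]; omega
      omega
    · have hcard : (f w).card = 2 := by omega
      have h7 : ((f w).erase δ).card = 1 := by
        rw [Multiset.card_erase_of_mem hδ, hcard]; rfl
      obtain ⟨y, hy⟩ := Multiset.card_eq_one.1 h7
      have h5 := sum_erase hδ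
      rw [hy, hsum, Multiset.sum_singleton] at h5
      refine ⟨y, hmem y ?_, h5⟩
      apply Multiset.mem_of_mem_erase (a := y) (b := δ)
      rw [hy]; simp
  · exfalso
    have hG : ∀ x ∈ f w, x ∈ G := by
      intro x hx
      rcases Finset.mem_insert.1 (hmem x hx) with rfl | h
      · exact absurd hx hδ
      · exact h
    apply hnw
    rw [mem_WW]
    refine ⟨hlt, ⟨?_, ?_⟩, ?_⟩
    · rw [← hsum]; exact sum_mem_sg hG
    · intro y hy
      exact hAp.2 y (sg_mono m c G δ hy)
    · obtain ⟨x, hx⟩ : ∃ x, x ∈ f w := by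
        apply Multiset.exists_mem_of_ne_zero
        rintro h0
        rw [h0] at hc2; simp at hc2
      have h7 : ∃ y, y ∈ (f w).erase x := by
        apply Multiset.exists_mem_of_ne_zero
        rintro h0
        have := Multiset.card_erase_of_mem hx
        rw [h0, Nat.pred_eq_sub_one] at this
        simp at this
        omega
      obtain ⟨y, hy⟩ := h7
      have hy2 := Multiset.mem_of_mem_erase hy
      have hmx := hst.g0.lo x (hG x hx)
      have hmy := hst.g0.lo y (hG y hy2)
      have hys := le_sum hy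
      refine ⟨x, sg_G (hG x hx), ((f w).erase x).sum, ?_, by omega, by omega, ?_⟩
      · exact sum_mem_sg (fun z hz => hG z (Multiset.mem_of_mem_erase hz))
      · rw [sum_erase hx, hsum]

theorem c_le_qm {m c : ℕ} (hm : 0 < m) : c ≤ qq m c * m := by
  unfold qq
  have h1 := Nat.div_add_mod (c + m - 1) m
  have h2 := Nat.mod_lt (c + m - 1) hm
  rw [mul_comm] at h1
  omega

theorem sC (h1 : S_AP) (h3 : S_FAC) (h4 : S_CLS) (h5 : S_V1) (h6 : S_V2) (h7 : S_PAIR) : S_C := by
  classical
  intro m c G δ hst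
  obtain ⟨f, hf⟩ := h3 m c G hst.g0
  have hm := hst.g0.hm
  have hmc := hst.g0.mc
  have hδG : δ ∉ G := fun h => lt_irrefl _ (hst.lt δ h)
  set W := WW m c G with hW
  set W' := WW m c (insert δ G) with hW'
  have hinj : Set.InjOn f (W ∩ W' : Finset ℕ) := by
    intro a ha b hb hab
    have ha' := (Finset.mem_inter.1 (Finset.mem_coe.1 ha)).1
    have hb' := (Finset.mem_inter.1 (Finset.mem_coe.1 hb)).1
    rw [← (hf a ha').2.2.1, ← (hf b hb').2.2.1, hab]
  refine ⟨(W ∩ W').image f, ?_, ?_, ?_, ?_⟩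
  · intro s hs
    obtain ⟨w, hw, rfl⟩ := Finset.mem_image.1 hs
    have hw1 := (Finset.mem_inter.1 hw).1
    obtain ⟨e1, e2, e3, -⟩ := hf w hw1
    refine ⟨e1, e2, ?_⟩
    rw [e3]; exact (mem_WW.1 hw1).1
  · intro s hs h3c x hx
    obtain ⟨w, hw, rfl⟩ := Finset.mem_image.1 hs
    obtain ⟨hw1, hw2⟩ := Finset.mem_inter.1 hw
    obtain ⟨e1, e2, e3, e4⟩ := hf w hw1
    obtain ⟨e5, e6⟩ := e4 x hx h3c
    rw [Finset.mem_image]
    refine ⟨w - x, Finset.mem_inter.2 ⟨e5, ?_⟩, e6⟩
    obtain ⟨q1, q2, q3⟩ := mem_WW.1 e5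
    have hxw : x ≤ w := by rw [← e3]; exact le_sum hx
    rw [hW', mem_WW]
    refine ⟨q1, ⟨sg_mono m c G δ q2.1, ?_⟩, dec_mono (sg_mono m c G δ) q3⟩
    intro y hy hyw
    obtain ⟨-, r2, -⟩ := mem_WW.1 hw2
    refine r2.2 (y + x) (AddSubmonoid.add_mem _ hy (sg_mono m c G δ (sg_G (e2 x hx)))) ?_
    omega
  · rw [Finset.sum_image hinj]
    apply le_of_eq
    apply Finset.sum_congr rfl
    intro w hw
    rw [(hf w (Finset.mem_inter.1 hw).1).2.2.1]
  · -- the lower bound
    let g : ℕ → Multiset ℕ := fun w => if w ∈ W then f w else δ ::ₘ {w - δ}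
    have hg : ∀ w ∈ W', 2 ≤ (g w).card ∧ (∀ x ∈ g w, x ∈ insert δ G) ∧ (g w).sum = w := by
      intro w hw
      by_cases hwW : w ∈ W
      · obtain ⟨e1, e2, e3, -⟩ := hf w hwW
        simp only [g, if_pos hwW]
        exact ⟨e1, fun x hx => Finset.mem_insert_of_mem (e2 x hx), e3⟩
      · obtain ⟨x, hx, hxw⟩ := h4 m c G δ hst w hw hwW
        have : w - δ = x := by omega
        simp only [g, if_neg hwW, this]
        refine ⟨by simp, ?_, by simpa using hxw⟩
        intro y hy
        simp only [Multiset.mem_cons, Multiset.mem_singleton] at hy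
        rcases hy with rfl | rfl
        · exact Finset.mem_insert_self _ _
        · exact hx
    have hg3 : ∀ w ∈ W', 3 ≤ (g w).card → w ∈ W := by
      intro w hw h
      by_contra hc
      simp only [g, if_neg hc] at h
      simp at h
    have hgf : ∀ w ∈ W, g w = f w := fun w hw => by simp only [g, if_pos hw]
    -- the summed V1 inequality
    have hV : ∑ w ∈ W', ((qq m c : ℤ) + ((g w).card - 1) * pp m c w) ≤
        ∑ w ∈ W', ((((g w).map (fun x => (pp m c (w - x) : ℤ))).sum) + ((g w).card - 2)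
          + vv m c w) := by
      apply Finset.sum_le_sum
      intro w hw
      obtain ⟨e1, e2, e3⟩ := hg w hw
      have := h5 m c hm hmc (g w) e1 (by rw [e3]; exact (mem_WW.1 hw).1)
      rw [e3] at this
      have hcast : ((((g w).map (fun x => pp m c (w - x))).sum : ℕ) : ℤ) =
          ((g w).map (fun x => (pp m c (w - x) : ℤ))).sum := by
        rw [Nat.cast_multiset_sum, Multiset.map_map]; rfl
      rw [← hcast]
      have h8 : (((g w).card - 1 : ℕ) : ℤ) = ((g w).card : ℤ) - 1 := by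
        rw [Nat.cast_sub (by omega)]; simp
      have h9 : (((g w).card - 2 : ℕ) : ℤ) = ((g w).card : ℤ) - 2 := by
        rw [Nat.cast_sub e1]; simp
      have h10 : ((qq m c + ((g w).card - 1) * pp m c w : ℕ) : ℤ) ≤
        (((((g w).map (fun x => pp m c (w - x))).sum + ((g w).card - 2) + vv m c w : ℕ)) : ℤ) :=
        Int.ofNat_le.2 this
      push_cast [h8, h9] at h10 ⊢
      linarith
    have hvv : ((∑ w ∈ W', vv m c w : ℕ) : ℤ) ≤ (qq m c : ℤ) * m - c := by
      have e1 := h6 m c hm hmc W' (by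
        intro x hx y hy hxy
        obtain ⟨-, -, e, -⟩ := h1 m c (Sg m c (insert δ G)) hm sg_m (fun x hx => sg_c hx)
        exact e x y (mem_WW.1 hx).2.1 (mem_WW.1 hy).2.1 hxy)
      have e2 := c_le_qm (c := c) hm
      have e3 : ((∑ w ∈ W', vv m c w : ℕ) : ℤ) ≤ ((qq m c * m - c : ℕ) : ℤ) := Int.ofNat_le.2 e1
      rw [Nat.cast_sub e2] at e3
      push_cast at e3 ⊢
      exact e3
    -- the pairs
    have hpair : ∑ w ∈ W' with ¬ 3 ≤ (g w).card,
        (((g w).map (fun x => (pp m c (w - x) : ℤ))).sum + ((g w).card - 2)) ≤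
        ((G.card : ℤ) + 2) * ∑ x ∈ insert δ G, (pp m c x : ℤ) := by
      have e1 : ∀ w ∈ W'.filter (fun w => ¬ 3 ≤ (g w).card),
          (((g w).map (fun x => (pp m c (w - x) : ℤ))).sum + (((g w).card : ℤ) - 2)) =
          ((((g w).map (pp m c)).sum : ℕ) : ℤ) := by
        intro w hw
        obtain ⟨hw1, hw2⟩ := Finset.mem_filter.1 hw
        obtain ⟨c1, c2, c3⟩ := hg w hw1
        have hcard : (g w).card = 2 := by omega
        obtain ⟨x, y, hxy⟩ := Multiset.card_eq_two.1 hcard
        rw [hxy] at c3 ⊢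
        simp only [Multiset.insert_eq_cons, Multiset.sum_cons, Multiset.sum_singleton] at c3
        have e1 : w - x = y := by omega
        have e2 : w - y = x := by omega
        simp [e1, e2]
        ring
      rw [Finset.sum_congr rfl e1]
      have hinj2 : Set.InjOn g (W'.filter (fun w => ¬ 3 ≤ (g w).card) : Finset ℕ) := by
        intro a ha b hb hab
        have ha' := (Finset.mem_filter.1 (Finset.mem_coe.1 ha)).1
        have hb' := (Finset.mem_filter.1 (Finset.mem_coe.1 hb)).1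
        rw [← (hg a ha').2.2, ← (hg b hb').2.2, hab]
      have e2 := h7 (insert δ G) ((W'.filter (fun w => ¬ 3 ≤ (g w).card)).image g) (pp m c) (by
        intro s hs
        obtain ⟨w, hw, rfl⟩ := Finset.mem_image.1 hs
        obtain ⟨hw1, hw2⟩ := Finset.mem_filter.1 hw
        obtain ⟨c1, c2, c3⟩ := hg w hw1
        exact ⟨by omega, c2⟩)
      rw [Finset.sum_image hinj2, Finset.card_insert_of_notMem hδG] at e2
      have e3 : ((∑ w ∈ W'.filter (fun w => ¬ 3 ≤ (g w).card), ((g w).map (pp m c)).sum : ℕ) : ℤ) ≤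
        (((G.card + 1 + 1) * ∑ x ∈ insert δ G, pp m c x : ℕ) : ℤ) := Int.ofNat_le.2 e2
      push_cast at e3 ⊢
      linarith
    -- members of size at least three
    have hthree : ∑ w ∈ W' with 3 ≤ (g w).card,
        (((g w).map (fun x => (pp m c (w - x) : ℤ))).sum + (((g w).card : ℤ) - 2)) =
        ∑ s ∈ ((W ∩ W').image f).filter (fun s => 3 ≤ s.card),
          ((s.map (fun x => (pp m c (s.erase x).sum : ℤ))).sum + ((s.card : ℤ) - 2)) := by
      have e1 : ((W ∩ W').image f).filter (fun s => 3 ≤ s.card) =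
          (W'.filter (fun w => 3 ≤ (g w).card)).image f := by
        ext s
        simp only [Finset.mem_filter, Finset.mem_image, Finset.mem_inter]
        constructor
        · rintro ⟨⟨w, ⟨a1, a2⟩, rfl⟩, a3⟩
          exact ⟨w, ⟨a2, by rw [hgf w a1]; exact a3⟩, rfl⟩
        · rintro ⟨w, ⟨a1, a2⟩, rfl⟩
          have a3 := hg3 w a1 a2
          exact ⟨⟨w, ⟨a3, a1⟩, rfl⟩, by rw [← hgf w a3]; exact a2⟩
      rw [e1, Finset.sum_image (by
        intro a ha b hb hab
        obtain ⟨ha1, ha2⟩ := Finset.mem_filter.1 (Finset.mem_coe.1 ha)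
        obtain ⟨hb1, hb2⟩ := Finset.mem_filter.1 (Finset.mem_coe.1 hb)
        exact hinj (Finset.mem_coe.2 (Finset.mem_inter.2 ⟨hg3 a ha1 ha2, ha1⟩))
          (Finset.mem_coe.2 (Finset.mem_inter.2 ⟨hg3 b hb1 hb2, hb1⟩)) hab)]
      apply Finset.sum_congr rfl
      intro w hw
      obtain ⟨hw1, hw2⟩ := Finset.mem_filter.1 hw
      have hwW := hg3 w hw1 hw2
      obtain ⟨-, -, a3, -⟩ := hf w hwW
      rw [hgf w hwW]
      congr 2
      apply Multiset.map_congr rfl
      intro x hx
      have a4 := sum_erase hx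
      rw [a3] at a4
      have : w - x = ((f w).erase x).sum := by omega
      rw [this]
    -- the main sum
    have hmain : ∑ s ∈ (W ∩ W').image f, ((G.card : ℤ) + 1 + s.card) * (pp m c s.sum : ℤ) ≤
        ∑ w ∈ W', ((G.card : ℤ) + 1 + (g w).card) * (pp m c w : ℤ) := by
      rw [Finset.sum_image hinj]
      calc ∑ x ∈ W ∩ W', ((G.card : ℤ) + 1 + (f x).card) * (pp m c (f x).sum : ℤ)
          = ∑ x ∈ W ∩ W', ((G.card : ℤ) + 1 + (g x).card) * (pp m c x : ℤ) := by
            apply Finset.sum_congr rfl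
            intro w hw
            have hw1 := (Finset.mem_inter.1 hw).1
            rw [(hf w hw1).2.2.1, hgf w hw1]
        _ ≤ _ := by
            apply Finset.sum_le_sum_of_subset_of_nonneg Finset.inter_subset_right
            intro w _ _
            positivity
    have hsplit := Finset.sum_filter_add_sum_filter_not W' (fun w => 3 ≤ (g w).card)
      (fun w => (((g w).map (fun x => (pp m c (w - x) : ℤ))).sum + (((g w).card : ℤ) - 2)))
    have hV1 : ∑ w ∈ W', ((qq m c : ℤ) + ((g w).card - 1) * pp m c w) =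
        (qq m c : ℤ) * W'.card + ∑ w ∈ W', (((g w).card : ℤ) - 1) * pp m c w := by
      rw [Finset.sum_add_distrib, Finset.sum_const, nsmul_eq_mul]; ring
    have hV2 : ∑ w ∈ W', ((((g w).map (fun x => (pp m c (w - x) : ℤ))).sum)
        + (((g w).card : ℤ) - 2) + vv m c w) =
        ∑ w ∈ W', (((g w).map (fun x => (pp m c (w - x) : ℤ))).sum + (((g w).card : ℤ) - 2))
        + ((∑ w ∈ W', vv m c w : ℕ) : ℤ) := by
      rw [Finset.sum_add_distrib]; push_cast; rfl
    rw [hV1, hV2] at hV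
    have hE : EE m c (insert δ G) = ((G.card : ℤ) + 2) * (∑ g ∈ insert δ G, (pp m c g : ℤ))
        + ((G.card : ℤ) + 2) * (∑ w ∈ W', (pp m c w : ℤ))
        - (qq m c : ℤ) * W'.card + ((qq m c : ℤ) * m - c) := by
      unfold EE
      rw [Finset.card_insert_of_notMem hδG]
      push_cast
      ring
    have hcomb : ∑ w ∈ W', ((G.card : ℤ) + 1 + (g w).card) * (pp m c w : ℤ) =
        ((G.card : ℤ) + 2) * (∑ w ∈ W', (pp m c w : ℤ)) +
        ∑ w ∈ W', (((g w).card : ℤ) - 1) * pp m c w := by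
      rw [Finset.mul_sum, ← Finset.sum_add_distrib]
      apply Finset.sum_congr rfl
      intro w _
      ring
    rw [hE]
    linarith

end Pool.Agent.R112.EN
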