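import Pool.Agent.R112.EN.Stm

namespace Pool.Agent.R112.EN

open Finset

theorem e1 : S_E1 := by
  intro G F s
  unfold tt
  rw [Finset.sum_add_distrib, Finset.sum_const, smul_eq_mul, mul_one, add_comm]
  apply Nat.add_le_add_left
  rw [← s.toFinset_sum_count_eq]
  apply Finset.sum_le_sum_of_ne_zero
  intro x _ hx
  rw [Multiset.mem_toFinset]
  exact Multiset.count_ne_zero.mp hx

lemma num_HA (l h : ℕ) (hl : 2 ≤ l) (h1 : h + 1 ≤ l) : 32 * h ≤ (3 * l - 2) * (3 * l + 3) := by
  obtain ⟨k, rfl⟩ : ∃ k, l = k + 2 := ⟨l - 2, by omega⟩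
  have : 3 * (k + 2) - 2 = 3 * k + 4 := by omega
  rw [this]
  nlinarith

/-- numeric lemma of the hard case -/
lemma num_HB (P j l h : ℕ) (hP : 1 ≤ P) (hj : 1 ≤ j) (hl : 2 ≤ l)
    (h1 : ((P + j) / 2) * h + P + 2 * j + 1 ≤ (P + 1) * (l - 1)) :
    32 * h ≤ (3 * l - 2) * (3 * l + 3) := by
  obtain ⟨k, rfl⟩ : ∃ k, l = k + 2 := ⟨l - 2, by omega⟩
  have e1 : 3 * (k + 2) - 2 = 3 * k + 4 := by omega
  have e2 : k + 2 - 1 = k + 1 := by omega
  rw [e1]; rw [e2] at h1
  obtain ⟨a, ha⟩ : ∃ a, (P + j) / 2 = a := ⟨_, rfl⟩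
  rw [ha] at h1
  have ha1 : 1 ≤ a := by omega
  have hPa : P + j ≤ 2 * a + 1 := by omega
  have h2 : a * h + 2 * j ≤ (P + 1) * k := by nlinarith
  -- a h + 2 ≤ (2a+1) k
  have h3 : a * h + 2 ≤ (2 * a + 1) * k := by
    have : (P + 1) * k ≤ (2 * a + 1) * k := Nat.mul_le_mul_right _ (by omega)
    omega
  have hk : 1 ≤ k := by
    rcases Nat.eq_zero_or_pos k with h0 | h0
    · subst h0; omega
    · exact h0
  have h4 : h + 2 ≤ 3 * k := by
    by_contra hcon
    push Not at hcon
    have h5 : 3 * k ≤ h + 1 := by omega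
    obtain ⟨a', rfl⟩ : ∃ a', a = a' + 1 := ⟨a - 1, by omega⟩
    obtain ⟨k', rfl⟩ : ∃ k', k = k' + 1 := ⟨k - 1, by omega⟩
    nlinarith [Nat.mul_le_mul_left (a' + 1) h5, Nat.zero_le (a' * k')]
  zify at *
  nlinarith [sq_nonneg ((k : ℤ) - 3), sq_nonneg ((k : ℤ) - 4)]

/-- the edges contained in triangles have total weight at most `K` -/
lemma edges_K (G : Finset ℕ) (F : Finset (Multiset ℕ)) (p : Multiset ℕ → ℕ) (l D K q : ℕ)
    (hc : Core G F p l D K q) :
    (D / 2) * ((lev F 2).filter (fun s => 0 < tt G F s)).card ≤ K := by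
  refine le_trans ?_ hc.sumK
  calc (D / 2) * ((lev F 2).filter (fun s => 0 < tt G F s)).card
      = ∑ _s ∈ (lev F 2).filter (fun s => 0 < tt G F s), (D / 2) := by
        rw [Finset.sum_const, smul_eq_mul, mul_comm]
    _ ≤ ∑ s ∈ (lev F 2).filter (fun s => 0 < tt G F s), p s := by
        apply Finset.sum_le_sum
        intro s hs
        rw [mem_filter] at hs
        obtain ⟨hs1, hs2⟩ := hs
        have hsF : s ∈ F := (mem_filter.mp hs1).1
        have : ∃ x, x ::ₘ s ∈ F := by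
          by_contra hcon
          push Not at hcon
          have : tt G F s = 0 := by
            unfold tt
            rw [Finset.filter_false_of_mem]
            · simp
            · intro x _; exact hcon x
          omega
        obtain ⟨x, hx⟩ := this
        have := hc.lowp s hsF {x} (by simp) (by rw [add_comm, Multiset.singleton_add]; exact hx)
        simpa using this
    _ ≤ ∑ s ∈ F, p s := by
        apply Finset.sum_le_sum_of_subset
        intro s hs
        exact (mem_filter.mp (mem_filter.mp hs).1).1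

theorem e3 : S_E3 := by
  intro G F p l D K q hc hcase
  have hK := edges_K G F p l D K q hc
  obtain ⟨h, hh⟩ : ∃ h, ((lev F 2).filter (fun s => 0 < tt G F s)).card = h := ⟨_, rfl⟩
  rw [hh] at hK ⊢
  have hD := hc.hD
  have hD2 : 1 ≤ D / 2 := by omega
  rcases hcase with h1 | ⟨P, j, e, X, hB⟩
  · apply num_HA l h hc.l2
    have : h ≤ D / 2 * h := Nat.le_mul_of_pos_left _ hD2
    omega
  · apply num_HB P j l h hB.hP hB.hj hc.l2
    have h2 := hB.hK
    rw [hB.hD] at hK
    have : 0 ≤ (1 - e) * q := Nat.zero_le _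
    have : 0 ≤ (G \ X).card * (P + 1 + j) := Nat.zero_le _
    omega

end Pool.Agent.R112.EN
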