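import Mathlib
import Pool.Agent.R112.EN.Stm

namespace Pool.Agent.R112.EN

open Finset

theorem e0 : S_E0 := by
  intro G F hF n hn f
  have hL : ∀ s : Multiset ℕ, (s.map (fun x => f (s.erase x))).sum
      = ∑ x ∈ s.toFinset, (s.count x : ℤ) * f (s.erase x) := by
    intro s
    rw [Finset.sum_multiset_map_count]
    simp
  have hR : ∀ s : Multiset ℕ, (tt G F s : ℤ) * f s
      = ∑ x ∈ G.filter (fun x => x ::ₘ s ∈ F), ((s.count x : ℤ) + 1) * f s := by
    intro s
    unfold tt
    push_cast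
    rw [Finset.sum_mul]
  simp_rw [hL, hR]
  rw [Finset.sum_sigma', Finset.sum_sigma']
  refine Finset.sum_bij' (fun a _ => ⟨a.1.erase a.2, a.2⟩) (fun b _ => ⟨b.2 ::ₘ b.1, b.2⟩)
    ?_ ?_ ?_ ?_ ?_
  · rintro ⟨s, x⟩ ha
    simp only [mem_sigma, lev, mem_filter, Multiset.mem_toFinset] at ha ⊢
    obtain ⟨⟨hs, hc⟩, hx⟩ := ha
    refine ⟨⟨hF.cl s hs (by omega) x hx, ?_⟩, (hF.mem s hs).2 x hx, ?_⟩
    · rw [Multiset.card_erase_of_mem hx, hc]; rfl
    · rw [Multiset.cons_erase hx]; exact hs
  · rintro ⟨s, x⟩ ha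
    simp only [mem_sigma, lev, mem_filter, Multiset.mem_toFinset] at ha ⊢
    obtain ⟨⟨hs, hc⟩, hx, hxs⟩ := ha
    refine ⟨⟨hxs, by simp [hc]⟩, by simp⟩
  · rintro ⟨s, x⟩ ha
    simp only [mem_sigma, lev, mem_filter, Multiset.mem_toFinset] at ha ⊢
    simp [Multiset.cons_erase ha.2]
  · rintro ⟨s, x⟩ ha
    simp
  · rintro ⟨s, x⟩ ha
    simp only [mem_sigma, lev, mem_filter, Multiset.mem_toFinset] at ha ⊢
    have h1 : s.count x = (s.erase x).count x + 1 := by
      conv_lhs => rw [← Multiset.cons_erase ha.2]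
      simp
    rw [h1]
    push_cast
    ring

/-- the edges contained in triangles -/
private theorem erase_mem_E {G : Finset ℕ} {F : Finset (Multiset ℕ)} (hF : MC G F)
    {w : Multiset ℕ} (hw : w ∈ lev F 3) {x : ℕ} (hx : x ∈ w) :
    w.erase x ∈ (lev F 2).filter (fun s => 0 < tt G F s) := by
  simp only [lev, mem_filter] at hw ⊢
  obtain ⟨hwF, hc⟩ := hw
  refine ⟨⟨hF.cl w hwF (by omega) x hx, ?_⟩, ?_⟩
  · rw [Multiset.card_erase_of_mem hx, hc]; rfl
  · unfold tt
    apply Finset.sum_pos (fun i _ => Nat.succ_pos _)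
    refine ⟨x, ?_⟩
    rw [mem_filter]
    refine ⟨(hF.mem w hwF).2 x hx, ?_⟩
    rw [Multiset.cons_erase hx]; exact hwF

private theorem sumcount {G : Finset ℕ} {F : Finset (Multiset ℕ)} (hF : MC G F)
    (E : Finset (Multiset ℕ)) (hE : E ⊆ F) (k : ℕ) (hk : ∀ s ∈ E, s.card = k) :
    ∑ A ∈ G, ∑ w ∈ E, w.count A = k * E.card := by
  rw [Finset.sum_comm]
  have : ∀ w ∈ E, ∑ A ∈ G, w.count A = k := by
    intro w hw
    rw [← hk w hw]
    exact Multiset.sum_count_eq_card (fun a ha => (hF.mem w (hE hw)).2 a ha)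
  rw [Finset.sum_congr rfl this]
  simp [mul_comm]

/-- the bounds for one vertex -/
private theorem vertex {G : Finset ℕ} {F : Finset (Multiset ℕ)} (hF : MC G F)
    (E : Finset (Multiset ℕ)) (hE : E = (lev F 2).filter (fun s => 0 < tt G F s)) (A : ℕ) :
    (∑ w ∈ lev F 3, w.count A) ≤ E.card + ∑ y ∈ E, y.count A ∧
    2 * (∑ w ∈ lev F 3, w.count A) ≤ (∑ y ∈ E, y.count A) * ((∑ y ∈ E, y.count A) + 1) := by
  classical
  set d := ∑ y ∈ E, y.count A with hd
  set M := (lev F 3).filter (fun w => A ∈ w) with hM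
  set Y := M.image (fun w => w.erase A) with hY
  have hYE : Y ⊆ E := by
    intro y hy
    rw [hY, mem_image] at hy
    obtain ⟨w, hw, rfl⟩ := hy
    rw [hM, mem_filter] at hw
    rw [hE]
    exact erase_mem_E hF hw.1 hw.2
  have hinj : Set.InjOn (fun w : Multiset ℕ => w.erase A) (M : Set (Multiset ℕ)) := by
    intro w hw w' hw' h
    simp only [hM, coe_filter, Set.mem_ofPred_eq] at hw hw'
    simp only at h
    rw [← Multiset.cons_erase hw.2, h, Multiset.cons_erase hw'.2]
  have hT : ∑ w ∈ lev F 3, w.count A = Y.card + ∑ y ∈ Y, y.count A := by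
    have h1 : ∑ w ∈ lev F 3, w.count A = ∑ w ∈ M, w.count A := by
      rw [hM, Finset.sum_filter]
      apply Finset.sum_congr rfl
      intro w _
      split_ifs with h
      · rfl
      · exact Multiset.count_eq_zero_of_notMem h
    rw [h1, hY, Finset.sum_image hinj, Finset.card_image_of_injOn hinj]
    have h2 : ∀ w ∈ M, w.count A = 1 + (w.erase A).count A := by
      intro w hw
      rw [hM, mem_filter] at hw
      conv_lhs => rw [← Multiset.cons_erase hw.2]
      rw [Multiset.count_cons_self]; omega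
    rw [Finset.sum_congr rfl h2, Finset.sum_add_distrib]
    simp
  have hcY : Y.card ≤ E.card := Finset.card_le_card hYE
  have hsY : ∑ y ∈ Y, y.count A ≤ d := by
    rw [hd]
    exact Finset.sum_le_sum_of_subset hYE
  refine ⟨by omega, ?_⟩
  -- neighbourhood
  set N := G.filter (fun B => ({A, B} : Multiset ℕ) ∈ E) with hN
  have hYN : ∀ y ∈ Y, y.card = 2 ∧ ∀ B ∈ y, B ∈ N := by
    intro y hy
    have hyE := hYE hy
    rw [hE, mem_filter, lev, mem_filter] at hyE
    refine ⟨hyE.1.2, ?_⟩
    intro B hB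
    rw [hN, mem_filter]
    refine ⟨(hF.mem y hyE.1.1).2 B hB, ?_⟩
    obtain ⟨b, c, rfl⟩ := Multiset.card_eq_two.1 hyE.1.2
    rw [hY, mem_image] at hy
    obtain ⟨w, hw, hwe⟩ := hy
    rw [hM, mem_filter] at hw
    have hw2 : w = A ::ₘ {b, c} := by
      rw [← hwe, Multiset.cons_erase hw.2]
    have hb : w.erase c = {A, b} := by
      rw [hw2]
      have : (A ::ₘ ({b, c} : Multiset ℕ)) = c ::ₘ {A, b} := by
        simp only [Multiset.insert_eq_cons]
        rw [Multiset.cons_swap c A, ← Multiset.singleton_add b, ← Multiset.singleton_add c]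
        rw [← Multiset.singleton_add A, ← Multiset.singleton_add A]
        rw [add_comm ({b} : Multiset ℕ) {c}]
      rw [this, Multiset.erase_cons_head]
    have hc : w.erase b = {A, c} := by
      rw [hw2]
      have : (A ::ₘ ({b, c} : Multiset ℕ)) = b ::ₘ {A, c} := by
        simp only [Multiset.insert_eq_cons]
        rw [Multiset.cons_swap b A]
      rw [this, Multiset.erase_cons_head]
    have hB' : B = b ∨ B = c := by simpa using hB
    rw [hE]
    rcases hB' with rfl | rfl
    · rw [← hb]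
      exact erase_mem_E hF hw.1 (by rw [hw2]; simp)
    · rw [← hc]
      exact erase_mem_E hF hw.1 (by rw [hw2]; simp)
  -- number of pairs
  have hpairs : 2 * Y.card ≤ N.card * (N.card + 1) := by
    have hsub : Y ⊆ N.sym2.image (fun z => Sym2.lift
        ⟨fun a b => ({a, b} : Multiset ℕ), fun a b => Multiset.pair_comm a b⟩ z) := by
      intro y hy
      obtain ⟨h1, h2⟩ := hYN y hy
      obtain ⟨b, c, rfl⟩ := Multiset.card_eq_two.1 h1
      rw [mem_image]
      refine ⟨s(b, c), ?_, ?_⟩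
      · rw [Finset.mk_mem_sym2_iff]
        exact ⟨h2 b (by simp), h2 c (by simp)⟩
      · rfl
    have h1 := (Finset.card_le_card hsub).trans Finset.card_image_le
    rw [Finset.card_sym2] at h1
    have h2 : (N.card + 1).choose 2 * 2 = (N.card + 1) * N.card := by
      rw [Nat.choose_two_right]
      simp only [Nat.add_sub_cancel]
      apply Nat.div_mul_cancel
      rw [mul_comm]
      exact (Nat.even_mul_succ_self N.card).two_dvd
    nlinarith
  -- lower bound for d
  have hdN : N.card + (if A ∈ N then 1 else 0) ≤ d := by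
    have hinj2 : Set.InjOn (fun B : ℕ => ({A, B} : Multiset ℕ)) (N : Set ℕ) := by
      intro B _ C _ h
      simpa using h
    have hs : N.image (fun B : ℕ => ({A, B} : Multiset ℕ)) ⊆ E := by
      intro y hy
      rw [mem_image] at hy
      obtain ⟨B, hB, rfl⟩ := hy
      rw [hN, mem_filter] at hB
      exact hB.2
    calc N.card + (if A ∈ N then 1 else 0)
        = ∑ B ∈ N, (1 + if B = A then 1 else 0) := by
          rw [Finset.sum_add_distrib, Finset.sum_ite_eq']
          simp
      _ ≤ ∑ B ∈ N, Multiset.count A ({A, B} : Multiset ℕ) := by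
          apply Finset.sum_le_sum
          intro B _
          by_cases h : B = A
          · subst h; simp
          · simp [h]
      _ = ∑ y ∈ N.image (fun B : ℕ => ({A, B} : Multiset ℕ)), y.count A := by
          rw [Finset.sum_image hinj2]
      _ ≤ d := Finset.sum_le_sum_of_subset hs
  rw [hT]
  by_cases hA : A ∈ N
  · rw [if_pos hA] at hdN
    have hprod : N.card * (N.card + 1) ≤ (d - 1) * d := by
      apply Nat.mul_le_mul <;> omega
    obtain ⟨k, hk⟩ : ∃ k, d = k + 1 := ⟨d - 1, by omega⟩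
    rw [hk] at hprod hsY ⊢
    simp only [Nat.add_sub_cancel] at hprod
    nlinarith
  · rw [if_neg hA] at hdN
    have h0 : ∑ y ∈ Y, y.count A = 0 := by
      apply Finset.sum_eq_zero
      intro y hy
      apply Multiset.count_eq_zero_of_notMem
      intro h
      exact hA ((hYN y hy).2 A h)
    have hprod : N.card * (N.card + 1) ≤ d * (d + 1) := by
      apply Nat.mul_le_mul <;> omega
    rw [h0]
    omega

theorem e2 (_h0 : S_E0) : S_E2 := by
  intro G F hF l h hh hle hl
  set E := (lev F 2).filter (fun s => 0 < tt G F s) with hE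
  have hT := sumcount hF (lev F 3) (filter_subset _ _) 3 (fun s hs => (mem_filter.1 hs).2)
  have hD := sumcount hF E ((filter_subset _ _).trans (filter_subset _ _)) 2
    (fun s hs => (mem_filter.1 (mem_filter.1 hs).1).2)
  rw [← hh] at hD
  have key : ∀ A ∈ G, 8 * (∑ w ∈ lev F 3, w.count A) ≤ 3 * (l + 2) * ∑ y ∈ E, y.count A := by
    intro A _
    obtain ⟨h1, h2⟩ := vertex hF E hE A
    rw [← hh] at h1
    set T := ∑ w ∈ lev F 3, w.count A
    set d := ∑ y ∈ E, y.count A
    obtain ⟨l', rfl⟩ : ∃ l', l = l' + 1 := ⟨l - 1, by omega⟩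
    have e1 : 3 * (l' + 1) - 2 = 3 * l' + 1 := by omega
    rw [e1] at hle
    by_cases hc : 4 * (d + 1) ≤ 3 * (l' + 1 + 2)
    · nlinarith
    · push Not at hc
      have h4 : 3 * (l' + 1) + 3 ≤ 4 * d := by omega
      have h5 : 32 * h ≤ (3 * l' + 1) * (4 * d) := hle.trans (Nat.mul_le_mul_left _ h4)
      nlinarith
  have hsum : ∑ A ∈ G, 8 * (∑ w ∈ lev F 3, w.count A) ≤ ∑ A ∈ G, 3 * (l + 2) * ∑ y ∈ E, y.count A :=
    Finset.sum_le_sum key
  rw [← Finset.mul_sum, ← Finset.mul_sum, hT, hD] at hsum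
  nlinarith

end Pool.Agent.R112.EN
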