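import Mathlib
import Pool.Agent.R112.EN.Stm

namespace Pool.Agent.R112.EN

open Finset

/-- downward closure of a multicomplex -/
private theorem down {G : Finset ℕ} {F : Finset (Multiset ℕ)} (hF : MC G F) :
    ∀ (k : ℕ) (u v : Multiset ℕ), u ≤ v → v ∈ F → 2 ≤ u.card → v.card = u.card + k → u ∈ F := by
  intro k
  induction k with
  | zero =>
    intro u v huv hv _ hc
    rw [Multiset.eq_of_le_of_card_le huv (by omega)]
    exact hv
  | succ k ih =>
    intro u v huv hv hu hc
    obtain ⟨r, rfl⟩ := Multiset.le_iff_exists_add.1 huv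
    have hr : r.card = k + 1 := by
      rw [Multiset.card_add] at hc; omega
    obtain ⟨x, hx⟩ : ∃ x, x ∈ r := by
      apply Multiset.card_pos_iff_exists_mem.1
      omega
    have hxv : x ∈ u + r := Multiset.mem_add.2 (Or.inr hx)
    have h1 : (u + r).erase x ∈ F := hF.cl _ hv (by omega) x hxv
    refine ih u ((u + r).erase x) ?_ h1 hu ?_
    · rw [Multiset.erase_add_right_pos _ hx]
      exact Multiset.le_add_right _ _
    · rw [Multiset.card_erase_of_mem hxv, hc]
      rfl

/-- conclusion for `n ≥ 4` -/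
private theorem fin4 (n l t p : ℕ) (hn : 1 ≤ n) (hp : 1 ≤ p) (h : 2 * t ≤ l + n) :
    (n - 1) * t + (n + 1) * (t * p) ≤ (n + 1) * ((l + n) * p) := by
  have h1 : (n - 1) * t ≤ (n + 1) * (t * p) := by
    apply Nat.mul_le_mul (by omega)
    exact Nat.le_mul_of_pos_right _ hp
  have h2 : (n + 1) * (t * p) + (n + 1) * (t * p) ≤ (n + 1) * ((l + n) * p) := by
    rw [← mul_add]
    apply Nat.mul_le_mul_left
    nlinarith
  omega

/-- conclusion for `n = 3` -/
private theorem fin3 (l t p : ℕ) (hp : 1 ≤ p) (h : 3 * t ≤ 2 * (l + 3)) :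
    2 * t + 4 * (t * p) ≤ 4 * ((l + 3) * p) := by
  nlinarith

private theorem fin3' (l t p : ℕ) (hp : 2 ≤ p) (h : 5 * t ≤ 4 * (l + 3)) :
    2 * t + 4 * (t * p) ≤ 4 * ((l + 3) * p) := by
  nlinarith

/-- the basic estimate -/
private theorem basic {G : Finset ℕ} {F : Finset (Multiset ℕ)} {p : Multiset ℕ → ℕ} {l D K q : ℕ}
    (C : Core G F p l D K q) {s : Multiset ℕ} (hs : s ∈ F) (hn : 3 ≤ s.card) :
    (G.filter (fun x => x ::ₘ s ∈ F)).card * ((s.card - 1) * D / 2 + (s.card - 2) * D / 2) ≤ K := by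
  classical
  set Y := G.filter (fun x => x ::ₘ s ∈ F) with hY
  obtain ⟨a, ha⟩ : ∃ a, a ∈ s := Multiset.card_pos_iff_exists_mem.1 (by omega)
  obtain ⟨r, hr⟩ : ∃ r, s = a ::ₘ r := ⟨s.erase a, (Multiset.cons_erase ha).symm⟩
  have hrc : r.card + 1 = s.card := by rw [hr]; simp
  obtain ⟨b, hb⟩ : ∃ b, b ∈ r := Multiset.card_pos_iff_exists_mem.1 (by omega)
  obtain ⟨r', hr'⟩ : ∃ r', r = b ::ₘ r' := ⟨r.erase b, (Multiset.cons_erase hb).symm⟩
  have hrc' : r'.card + 2 = s.card := by rw [← hrc, hr']; simp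
  -- members
  have e1 : ∀ x, ({x, a} : Multiset ℕ) + r = x ::ₘ s := by
    intro x
    rw [hr]
    simp
  have e2 : ∀ x, ({x, a, b} : Multiset ℕ) + r' = x ::ₘ s := by
    intro x
    rw [hr, hr']
    simp
  have m1 : ∀ x ∈ Y, ({x, a} : Multiset ℕ) ∈ F := by
    intro x hx
    refine down C.mc (r.card) _ (x ::ₘ s) ?_ (mem_filter.1 hx).2 (by simp) ?_
    · rw [← e1 x]; exact Multiset.le_add_right _ _
    · rw [← e1 x, Multiset.card_add]
  have m2 : ∀ x ∈ Y, ({x, a, b} : Multiset ℕ) ∈ F := by
    intro x hx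
    refine down C.mc (r'.card) _ (x ::ₘ s) ?_ (mem_filter.1 hx).2 (by simp) ?_
    · rw [← e2 x]; exact Multiset.le_add_right _ _
    · rw [← e2 x, Multiset.card_add]
  have p1 : ∀ x ∈ Y, (s.card - 1) * D / 2 ≤ p {x, a} := by
    intro x hx
    have h := C.lowp {x, a} (m1 x hx) r (by omega) (by rw [e1]; exact (mem_filter.1 hx).2)
    have : r.card = s.card - 1 := by omega
    rwa [this] at h
  have p2 : ∀ x ∈ Y, (s.card - 2) * D / 2 ≤ p {x, a, b} := by
    intro x hx
    have h := C.lowp {x, a, b} (m2 x hx) r' (by omega) (by rw [e2]; exact (mem_filter.1 hx).2)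
    have : r'.card = s.card - 2 := by omega
    rwa [this] at h
  have i1 : Set.InjOn (fun x : ℕ => ({x, a} : Multiset ℕ)) (Y : Set ℕ) := by
    intro x _ y _ h
    simpa using h
  have i2 : Set.InjOn (fun x : ℕ => ({x, a, b} : Multiset ℕ)) (Y : Set ℕ) := by
    intro x _ y _ h
    simpa using h
  have hdis : Disjoint (Y.image (fun x : ℕ => ({x, a} : Multiset ℕ)))
      (Y.image (fun x : ℕ => ({x, a, b} : Multiset ℕ))) := by
    rw [Finset.disjoint_left]
    intro z hz hz'
    obtain ⟨x, _, rfl⟩ := mem_image.1 hz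
    obtain ⟨y, _, h⟩ := mem_image.1 hz'
    have := congrArg Multiset.card h
    simp at this
  have hsub : (Y.image (fun x : ℕ => ({x, a} : Multiset ℕ))) ∪
      (Y.image (fun x : ℕ => ({x, a, b} : Multiset ℕ))) ⊆ F := by
    intro z hz
    rcases mem_union.1 hz with hz | hz
    · obtain ⟨x, hx, rfl⟩ := mem_image.1 hz
      exact m1 x hx
    · obtain ⟨x, hx, rfl⟩ := mem_image.1 hz
      exact m2 x hx
  calc Y.card * ((s.card - 1) * D / 2 + (s.card - 2) * D / 2)
      = ∑ x ∈ Y, ((s.card - 1) * D / 2) + ∑ x ∈ Y, ((s.card - 2) * D / 2) := by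
        simp [mul_add]
    _ ≤ ∑ x ∈ Y, p {x, a} + ∑ x ∈ Y, p {x, a, b} :=
        add_le_add (Finset.sum_le_sum p1) (Finset.sum_le_sum p2)
    _ = ∑ z ∈ (Y.image (fun x : ℕ => ({x, a} : Multiset ℕ))) ∪
      (Y.image (fun x : ℕ => ({x, a, b} : Multiset ℕ))), p z := by
        rw [Finset.sum_union hdis, Finset.sum_image i1, Finset.sum_image i2]
    _ ≤ ∑ z ∈ F, p z := Finset.sum_le_sum_of_subset hsub
    _ ≤ K := C.sumK

theorem e4 (h1 : S_E1) : S_E4 := by
  intro G F p l D K q C hcase s hs hn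
  have hb := basic C hs hn
  have ht := h1 G F s
  set Y := G.filter (fun x => x ::ₘ s ∈ F) with hY
  by_cases hY0 : Y.card = 0
  · have h0 : tt G F s = 0 := by
      unfold tt
      rw [← hY, Finset.card_eq_zero.1 hY0]
      simp
    rw [h0]; simp
  obtain ⟨x0, hx0⟩ : Y.Nonempty := Finset.card_pos.1 (by omega)
  have hx0F : x0 ::ₘ s ∈ F := (mem_filter.1 hx0).2
  have hp : D / 2 ≤ p s := by
    have h := C.lowp s hs {x0} (by simp) (by
      rw [add_comm, Multiset.singleton_add]; exact hx0F)
    simpa using h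
  have hq : (s.card + 1) * D / 2 ≤ q := by
    have h := C.hq _ hx0F
    simpa using h
  have hD := C.hD
  have hl2 := C.l2
  have hp1 : 1 ≤ p s := le_trans (by omega) hp
  set n := s.card with hnn
  set t := tt G F s with htt
  set t' := Y.card with ht'
  set P0 := p s with hP0
  rcases hcase with hK | ⟨P, j, e, X, hB⟩
  · -- K + 1 ≤ l
    have f1 : n - 1 ≤ (n - 1) * D / 2 := by
      rw [Nat.le_div_iff_mul_le (by norm_num)]
      exact Nat.mul_le_mul_left _ hD
    have f2 : n - 2 ≤ (n - 2) * D / 2 := by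
      rw [Nat.le_div_iff_mul_le (by norm_num)]
      exact Nat.mul_le_mul_left _ hD
    have f3 : t' * (2 * n - 3) ≤ K := by
      refine le_trans (Nat.mul_le_mul_left _ ?_) hb
      omega
    rcases Nat.lt_or_ge n 4 with h3 | h4
    · have hn3 : n = 3 := by omega
      rw [hn3] at f3 ht ⊢
      have := fin3 l t P0 hp1 (by omega)
      simpa using this
    · apply fin4 n l t P0 (by omega) hp1
      have : 2 * t' + n - 1 ≤ t' * (2 * n - 3) := by
        obtain ⟨m, hm⟩ : ∃ m, n = m + 4 := ⟨n - 4, by omega⟩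
        obtain ⟨y, hy⟩ : ∃ y, t' = y + 1 := ⟨t' - 1, by omega⟩
        rw [hm, hy]
        have e1 : 2 * (m + 4) - 3 = 2 * m + 5 := by omega
        rw [e1]
        have : 2 * (y + 1) + (m + 4) - 1 = 2 * y + m + 5 := by omega
        rw [this]
        nlinarith [Nat.zero_le (y * m)]
      omega
  · -- hard case
    have he : e = 0 := by
      by_contra hne
      have he1 : e = 1 := by have := hB.he; omega
      have := hB.h4 he1 _ hx0F
      rw [Multiset.card_cons] at this
      omega
    have hKB := hB.hK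
    rw [he] at hKB
    simp only [Nat.sub_zero, one_mul] at hKB
    have hPj := hB.hD
    have hP1 := hB.hP
    have hj1 := hB.hj
    set u := (G \ X).card with hu
    have hKB' : K + P + 2 * j + q + 1 ≤ (P + 1) * (l - 1) := by
      have : 0 ≤ u * (P + 1 + j) := Nat.zero_le _
      omega
    rcases Nat.lt_or_ge n 4 with h3 | h4
    · -- n = 3
      have hn3 : n = 3 := by omega
      rw [hn3] at hb hq ht ⊢
      have g1 : (3 - 1) * D / 2 = D := by
        rw [show (3 - 1) * D = D * 2 by ring]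
        exact Nat.mul_div_cancel _ (by norm_num)
      have g2 : (3 - 2) * D / 2 = D / 2 := by
        norm_num
      have g3 : (3 + 1) * D / 2 = 2 * D := by
        omega
      rw [g1, g2] at hb
      rw [g3] at hq
      obtain ⟨L, hL⟩ : ∃ L, l = L + 1 := ⟨l - 1, by omega⟩
      have hgoal : (3 - 1) * t + (3 + 1) * (t * P0) ≤ (3 + 1) * ((l + 3) * P0) ↔
          2 * t + 4 * (t * P0) ≤ 4 * ((l + 3) * P0) := by norm_num
      rw [hgoal]
      rw [hL] at hKB' hKB
      simp only [Nat.add_sub_cancel] at hKB' hKB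
      -- a = D / 2
      by_cases hodd : P + 1 ≤ 2 * (D / 2)
      · -- use 2a
        apply fin3 l t P0 hp1
        set a := D / 2 with ha
        have ha1 : 1 ≤ a := by omega
        have h2a : 2 * a ≤ D := by omega
        have k1 : t' * (3 * a) ≤ K := le_trans (Nat.mul_le_mul_left _ (by omega)) hb
        have k2 : K + P + 2 * j + q + 1 ≤ (2 * a) * L :=
          hKB'.trans (Nat.mul_le_mul_right _ hodd)
        have k3 : t' * (3 * a) + 6 * a ≤ 2 * a * L := by omega
        have k4 : a * (3 * t' + 6) ≤ a * (2 * L) := by nlinarith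
        have k5 : 3 * t' + 6 ≤ 2 * L := Nat.le_of_mul_le_mul_left k4 (by omega)
        omega
      · -- P + 1 = D = 2a+1, j = 1
        obtain ⟨a, ha⟩ : ∃ a, a = D / 2 := ⟨_, rfl⟩
        have hj : j = 1 := by omega
        have hPa : P = 2 * a := by omega
        have hDa : D = 2 * a + 1 := by omega
        have ha1 : 1 ≤ a := by omega
        rw [← ha, hDa] at hb
        rw [hDa] at hq
        have k1 : t' * (3 * a + 1) ≤ K := le_trans (Nat.mul_le_mul_left _ (by omega)) hb
        rw [hPa, hj] at hKB' hKB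
        have k2 : t' * (3 * a + 1) + 6 * a + 5 ≤ (2 * a + 1) * L := by omega
        have k5 : 5 * t' + 3 ≤ 4 * l := by
          by_contra hcon
          push Not at hcon
          have c1 : 4 * L + 2 ≤ 5 * t' := by omega
          have c2 : (4 * L + 2) * (3 * a + 1) ≤ 5 * t' * (3 * a + 1) := Nat.mul_le_mul_right _ c1
          have c3 : a * L ≥ L := Nat.le_mul_of_pos_left _ ha1
          nlinarith
        by_cases hp2 : 2 ≤ P0
        · exact fin3' l t P0 hp2 (by omega)
        · -- a = 1, p = 1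
          have hP01 : P0 = 1 := by omega
          have haa : a = 1 := by omega
          rw [haa] at hKB k1 hPa hq
          have hYX : Y ⊆ G \ X := by
            intro x hx
            rw [Finset.mem_sdiff]
            refine ⟨(mem_filter.1 hx).1, fun hxX => ?_⟩
            have := hB.hXp x hxX s hs (mem_filter.1 hx).2
            omega
          have htu : t' ≤ u := Finset.card_le_card hYX
          apply fin3 l t P0 hp1
          omega
    · -- n ≥ 4
      apply fin4 n l t P0 (by omega) hp1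
      obtain ⟨L, hL⟩ : ∃ L, l = L + 1 := ⟨l - 1, by omega⟩
      rw [hL] at hKB'
      simp only [Nat.add_sub_cancel] at hKB'
      have hPD : P + 1 ≤ D := by omega
      have k1 : K + P + 2 * j + q + 1 ≤ D * L := hKB'.trans (Nat.mul_le_mul_right _ hPD)
      obtain ⟨m, hm⟩ : ∃ m, n = m + 4 := ⟨n - 4, by omega⟩
      obtain ⟨y, hy⟩ : ∃ y, t' = y + 1 := ⟨t' - 1, by omega⟩
      rw [hm] at hb hq
      rw [hy] at hb
      have e1 : m + 4 - 1 = m + 3 := by omega
      have e2 : m + 4 - 2 = m + 2 := by omega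
      rw [e1, e2] at hb
      set A := (m + 3) * D / 2 with hA
      set B := (m + 2) * D / 2 with hBB
      set Q := (m + 4 + 1) * D / 2 with hQ
      obtain ⟨w, hw⟩ : ∃ w, w = m * D := ⟨_, rfl⟩
      have a1 : (m + 3) * D = w + 3 * D := by rw [hw]; ring
      have a2 : (m + 2) * D = w + 2 * D := by rw [hw]; ring
      have a3 : (m + 4 + 1) * D = w + 5 * D := by rw [hw]; ring
      rw [a1] at hA
      rw [a2] at hBB
      rw [a3] at hQ
      have b1 : 2 * D ≤ A + B := by omega
      have b2 : w + 5 * D ≤ A + B + Q + D + 2 := by omega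
      have b3 : y * (2 * D) ≤ y * (A + B) := Nat.mul_le_mul_left _ b1
      have b4 : (y + 1) * (A + B) = y * (A + B) + (A + B) := by ring
      rw [b4] at hb
      have b5 : y * (2 * D) + w + 5 * D ≤ D * L := by
        omega
      have b6 : D * (2 * y + m + 5) ≤ D * L := by
        have : D * (2 * y + m + 5) = y * (2 * D) + w + 5 * D := by rw [hw]; ring
        rw [this]; exact b5
      have b7 : 2 * y + m + 5 ≤ L := Nat.le_of_mul_le_mul_left b6 (by omega)
      omega

end Pool.Agent.R112.EN
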