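import Mathlib
import Pool.Agent.R112.EN.Stm

namespace Pool.Agent.R112.EN

open Finset

/-- splitting a sum over `F` by levels `n + k`, when all cards lie in `[k, N + k)` -/
private theorem levels (F : Finset (Multiset ℕ)) (k N : ℕ) (φ : Multiset ℕ → ℤ) :
    (∀ s ∈ F, k ≤ s.card ∧ s.card < N + k) →
    ∑ s ∈ F, φ s = ∑ n ∈ range N, ∑ s ∈ lev F (n + k), φ s := by
  intro h
  have h1 : ∀ s ∈ F, s.card - k ∈ range N := by
    intro s hs
    have := h s hs
    rw [mem_range]; omega
  rw [← Finset.sum_fiberwise_of_maps_to h1]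
  apply Finset.sum_congr rfl
  intro n _
  apply Finset.sum_congr _ (fun _ _ => rfl)
  ext s
  simp only [lev, mem_filter]
  constructor
  · rintro ⟨hs, he⟩
    have := h s hs
    exact ⟨hs, by omega⟩
  · rintro ⟨hs, he⟩
    exact ⟨hs, by omega⟩

theorem e5 (h0 : S_E0) (h1 : S_E1) (h2 : S_E2) (h3 : S_E3) (h4 : S_E4) : S_E5 := by
  intro G F p l D K q C hcase
  have hmc := C.mc
  -- all cards are bounded
  set N := F.sup Multiset.card with hN
  have hcard : ∀ s ∈ F, s.card ≤ N := fun s hs => Finset.le_sup (f := Multiset.card) hs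
  have hA := levels F 2 N (fun s => ((l : ℤ) + s.card) * (p s : ℤ))
    (fun s hs => ⟨(hmc.mem s hs).1, by have := hcard s hs; omega⟩)
  have hB := levels (F.filter (fun s => 3 ≤ s.card)) 3 N
    (fun s => (s.map (fun x => (p (s.erase x) : ℤ))).sum + ((s.card : ℤ) - 2))
    (fun s hs => ⟨(mem_filter.1 hs).2, by have := hcard s (mem_filter.1 hs).1; omega⟩)
  rw [hA, hB, ← Finset.sum_sub_distrib]
  apply Finset.sum_nonneg
  intro i _
  -- the level `n = i + 2`
  have hlev : lev (F.filter (fun s => 3 ≤ s.card)) (i + 3) = lev F (i + 2 + 1) := by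
    ext s
    simp only [lev, mem_filter]
    constructor
    · rintro ⟨⟨a, _⟩, c⟩; exact ⟨a, by omega⟩
    · rintro ⟨a, c⟩; exact ⟨⟨a, by omega⟩, by omega⟩
  rw [hlev]
  have c1 : ∑ s ∈ lev F (i + 2), ((l : ℤ) + s.card) * (p s : ℤ)
      = ∑ s ∈ lev F (i + 2), ((l : ℤ) + (i + 2)) * (p s : ℤ) := by
    apply Finset.sum_congr rfl
    intro s hs
    have : s.card = i + 2 := (mem_filter.1 hs).2
    rw [this]; push_cast; ring
  have c2 : ∑ s ∈ lev F (i + 2 + 1),
      ((s.map (fun x => (p (s.erase x) : ℤ))).sum + ((s.card : ℤ) - 2))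
      = ∑ s ∈ lev F (i + 2), (tt G F s : ℤ) * (p s : ℤ) + ((i : ℤ) + 1) * (lev F (i + 2 + 1)).card := by
    rw [Finset.sum_add_distrib, h0 G F hmc (i + 2) (by omega) (fun s => (p s : ℤ))]
    congr 1
    have : ∀ s ∈ lev F (i + 2 + 1), ((s.card : ℤ) - 2) = (i : ℤ) + 1 := by
      intro s hs
      have : s.card = i + 2 + 1 := (mem_filter.1 hs).2
      rw [this]; push_cast; ring
    rw [Finset.sum_congr rfl this]
    simp [mul_comm]
  have c3 : ((i : ℤ) + 3) * (lev F (i + 2 + 1)).card = ∑ s ∈ lev F (i + 2), (tt G F s : ℤ) := by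
    have := h0 G F hmc (i + 2) (by omega) (fun _ => (1 : ℤ))
    simp only [mul_one] at this
    rw [← this]
    have h' : ∀ s ∈ lev F (i + 2 + 1), (s.map (fun _ => (1 : ℤ))).sum = (i : ℤ) + 3 := by
      intro s hs
      have hc : s.card = i + 2 + 1 := (mem_filter.1 hs).2
      rw [Multiset.map_const', Multiset.sum_replicate, hc]
      push_cast
      ring
    rw [Finset.sum_congr rfl h']
    simp [mul_comm]
  rw [c1, c2]
  rcases Nat.eq_zero_or_pos i with hi | hi
  · -- level 2
    subst hi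
    set E := (lev F 2).filter (fun s => 0 < tt G F s) with hE
    have hh := h2 G F hmc l E.card rfl (h3 G F p l D K q C hcase) (by have := C.l2; omega)
    have key : ((l : ℤ) + 2) * E.card - ∑ s ∈ lev F 2, (tt G F s : ℤ) ≤
        ∑ s ∈ lev F 2, (((l : ℤ) + 2) - (tt G F s : ℤ)) * (p s : ℤ) := by
      have e1 : ((l : ℤ) + 2) * E.card = ∑ s ∈ lev F 2, if 0 < tt G F s then ((l : ℤ) + 2) else 0 := by
        rw [← Finset.sum_filter, ← hE]
        simp [mul_comm]
      rw [e1, ← Finset.sum_sub_distrib]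
      apply Finset.sum_le_sum
      intro s hs
      have hsF : s ∈ F := (mem_filter.1 hs).1
      have hsc : s.card = 2 := (mem_filter.1 hs).2
      by_cases ht : 0 < tt G F s
      · rw [if_pos ht]
        -- p s ≥ 1
        have hne : (G.filter (fun x => x ::ₘ s ∈ F)).Nonempty := by
          by_contra hne
          rw [Finset.not_nonempty_iff_eq_empty] at hne
          unfold tt at ht
          rw [hne] at ht
          simp at ht
        obtain ⟨x, hx⟩ := hne
        have hxF : x ::ₘ s ∈ F := (mem_filter.1 hx).2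
        have hp : D / 2 ≤ p s := by
          have h := C.lowp s hsF {x} (by simp) (by
            rw [add_comm, Multiset.singleton_add]; exact hxF)
          simpa using h
        have hD := C.hD
        have hp1 : (1 : ℤ) ≤ p s := by
          have : 1 ≤ p s := le_trans (by omega) hp
          exact_mod_cast this
        have ht2 : tt G F s ≤ l + 1 := by
          have := h1 G F s
          have hc := Finset.card_filter_le G (fun x => x ::ₘ s ∈ F)
          have hl := C.hl
          omega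
        have ht3 : (tt G F s : ℤ) ≤ l + 1 := by exact_mod_cast ht2
        nlinarith
      · rw [if_neg ht]
        have : tt G F s = 0 := by omega
        rw [this]
        have hp0 : (0 : ℤ) ≤ p s := Int.natCast_nonneg _
        have hl0 : (0 : ℤ) ≤ l := Int.natCast_nonneg _
        push_cast
        nlinarith
    have e3 : ∑ s ∈ lev F (0 + 2), ((l : ℤ) + ((0 : ℕ) + 2)) * (p s : ℤ)
        - (∑ s ∈ lev F (0 + 2), (tt G F s : ℤ) * (p s : ℤ) + (((0 : ℕ) : ℤ) + 1) * (lev F (0 + 2 + 1)).card)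
        = ∑ s ∈ lev F 2, (((l : ℤ) + 2) - (tt G F s : ℤ)) * (p s : ℤ) - (lev F 3).card := by
      rw [← sub_sub, ← Finset.sum_sub_distrib]
      simp [sub_mul]
    rw [e3]
    have c3' : (3 : ℤ) * (lev F 3).card = ∑ s ∈ lev F 2, (tt G F s : ℤ) := by
      simpa using c3
    have hh' : (4 : ℤ) * (lev F 3).card ≤ ((l : ℤ) + 2) * E.card := by exact_mod_cast hh
    linarith
  · -- level n ≥ 3
    have hpos : (0 : ℤ) < (i : ℤ) + 3 := by positivity
    apply nonneg_of_mul_nonneg_right _ hpos
    have e1 : ((i : ℤ) + 3) * (∑ s ∈ lev F (i + 2), ((l : ℤ) + (i + 2)) * (p s : ℤ)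
        - (∑ s ∈ lev F (i + 2), (tt G F s : ℤ) * (p s : ℤ)
          + ((i : ℤ) + 1) * (lev F (i + 2 + 1)).card))
        = ∑ s ∈ lev F (i + 2), (((i : ℤ) + 3) * (((l : ℤ) + (i + 2)) * (p s : ℤ))
          - (((i : ℤ) + 1) * (tt G F s : ℤ) + ((i : ℤ) + 3) * ((tt G F s : ℤ) * (p s : ℤ)))) := by
      rw [Finset.sum_sub_distrib, Finset.sum_add_distrib]
      simp only [← Finset.mul_sum]
      rw [← c3]
      ring
    rw [e1]
    apply Finset.sum_nonneg
    intro s hs
    have hsF : s ∈ F := (mem_filter.1 hs).1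
    have hsc : s.card = i + 2 := (mem_filter.1 hs).2
    have h := h4 G F p l D K q C hcase s hsF (by omega)
    rw [hsc] at h
    have e2 : i + 2 - 1 = i + 1 := by omega
    rw [e2] at h
    have h' : (((i + 1) * tt G F s + (i + 2 + 1) * (tt G F s * p s) : ℕ) : ℤ)
        ≤ (((i + 2 + 1) * ((l + (i + 2)) * p s) : ℕ) : ℤ) := by exact_mod_cast h
    push_cast at h'
    linarith

end Pool.Agent.R112.EN
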