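import Mathlib
import Pool.Agent.R112.EN.Stm

/-! Project EN: piece FAC, greedy factorisations. -/

set_option autoImplicit false

namespace Pool.Agent.R112.EN

open Finset

namespace F394

open Classical in
/-- the generators which divide `w` -/
noncomputable def cand (G : Finset ℕ) (S : AddSubmonoid ℕ) (w : ℕ) : Finset ℕ :=
  G.filter fun g => 0 < g ∧ g ≤ w ∧ w - g ∈ S

open Classical in
/-- greedy factorisation -/
noncomputable def gf (G : Finset ℕ) (S : AddSubmonoid ℕ) (w : ℕ) : Multiset ℕ :=
  if h : (cand G S w).Nonempty then (cand G S w).max' h ::ₘ gf G S (w - (cand G S w).max' h) else 0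
termination_by w
decreasing_by
  have h1 := (Finset.mem_filter.1 (Finset.max'_mem _ h)).2
  omega

theorem gf_pos {G : Finset ℕ} {S : AddSubmonoid ℕ} {w : ℕ} (h : (cand G S w).Nonempty) :
    gf G S w = (cand G S w).max' h ::ₘ gf G S (w - (cand G S w).max' h) := by
  rw [gf, dif_pos h]

theorem gf_neg {G : Finset ℕ} {S : AddSubmonoid ℕ} {w : ℕ} (h : ¬ (cand G S w).Nonempty) :
    gf G S w = 0 := by
  rw [gf, dif_neg h]

theorem mem_cand {G : Finset ℕ} {S : AddSubmonoid ℕ} {w g : ℕ} :
    g ∈ cand G S w ↔ g ∈ G ∧ 0 < g ∧ g ≤ w ∧ w - g ∈ S := by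
  classical
  unfold cand
  rw [Finset.mem_filter]

theorem gen_of_ne {m c : ℕ} {G : Finset ℕ} (x : ℕ) (hx : x ∈ Sg m c G) :
    x ≠ 0 → ∃ a, (a = m ∨ a ∈ G ∨ c ≤ a) ∧ a ≤ x ∧ x - a ∈ Sg m c G := by
  refine AddSubmonoid.closure_induction
    (motive := fun x _ => x ≠ 0 → ∃ a, (a = m ∨ a ∈ G ∨ c ≤ a) ∧ a ≤ x ∧ x - a ∈ Sg m c G) ?_ ?_ ?_ hx
  · intro x hx _
    refine ⟨x, ?_, le_rfl, by rw [Nat.sub_self]; exact (Sg m c G).zero_mem⟩
    rcases hx with rfl | hx | hx
    · exact Or.inl rfl
    · exact Or.inr (Or.inl hx)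
    · exact Or.inr (Or.inr hx)
  · intro h; exact absurd rfl h
  · intro x y hx hy h1 h2 h
    by_cases hx0 : x = 0
    · subst hx0
      rw [zero_add] at h ⊢
      exact h2 h
    · obtain ⟨a, ha, hax, haS⟩ := h1 hx0
      refine ⟨a, ha, by omega, ?_⟩
      rw [show x + y - a = (x - a) + y by omega]
      exact (Sg m c G).add_mem haS hy

theorem sum_mem {m c : ℕ} {G : Finset ℕ} (t : Multiset ℕ) (h : ∀ x ∈ t, x ∈ G) :
    t.sum ∈ Sg m c G :=
  (Sg m c G).multiset_sum_mem t fun x hx =>
    AddSubmonoid.subset_closure (Set.mem_insert_of_mem _ (Or.inl (h x hx)))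

end F394

open F394

theorem fac (h1 : S_AP) (h2 : S_IND) : S_FAC := by
  classical
  intro m c G hG
  set S := Sg m c G with hS
  have hm := hG.hm
  have hmS : m ∈ S := AddSubmonoid.subset_closure (Set.mem_insert _ _)
  have hcS : ∀ x, c ≤ x → x ∈ S := fun x hx =>
    AddSubmonoid.subset_closure (Set.mem_insert_of_mem _ (Or.inr hx))
  have hGS : ∀ g ∈ G, g ∈ S := fun g hg =>
    AddSubmonoid.subset_closure (Set.mem_insert_of_mem _ (Or.inl hg))
  obtain ⟨-, ap2, -, -, ap5⟩ := h1 m c S hm hmS hcS
  obtain ⟨in1, in2, in3⟩ := h2 m c G hG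
  -- nice elements
  set nice : ℕ → Prop := fun w => Ap m S w ∧ (w = 0 ∨ w ∈ G ∨ Dec S w) with hnice
  have hne : ∀ w, nice w → w ≠ 0 → (cand G S w).Nonempty := by
    rintro w ⟨hA, hw⟩ hw0
    rcases hw with hw | hw | hw
    · exact absurd hw hw0
    · refine ⟨w, mem_cand.2 ⟨hw, by omega, le_rfl, ?_⟩⟩
      rw [Nat.sub_self]; exact S.zero_mem
    · obtain ⟨x, hx, y, hy, hx0, hy0, hxy⟩ := hw
      obtain ⟨a, ha, hax, haS⟩ := gen_of_ne x hx hx0
      have hym := in3 y hy hy0
      have hwc := ap2 w hA
      have haw : w - a ∈ S := by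
        rw [show w - a = (x - a) + y by omega]
        exact S.add_mem haS hy
      rcases ha with rfl | ha | ha
      · exact absurd (by omega : w - a + a = w) (hA.2 _ haw)
      · have := hG.lo a ha
        exact ⟨a, mem_cand.2 ⟨ha, by omega, by omega, haw⟩⟩
      · omega
  have hnext : ∀ w, nice w → ∀ g ∈ cand G S w, nice (w - g) := by
    rintro w ⟨hA, hw⟩ g hg
    obtain ⟨hgG, hg0, hgw, hgS⟩ := mem_cand.1 hg
    have h3 := (ap5 w (w - g) g hA hgS (hGS g hgG) (by omega)).1
    refine ⟨h3, ?_⟩
    by_cases h0 : w - g = 0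
    · exact Or.inl h0
    by_cases hd : Dec S (w - g)
    · exact Or.inr (Or.inr hd)
    rcases in1 _ h3 h0 hd with h | h
    · exact Or.inr (Or.inl h)
    · have := hG.lo g hgG
      have := ap2 w hA
      omega
  have hzero : ¬ (cand G S 0).Nonempty := by
    rintro ⟨g, hg⟩
    obtain ⟨-, h3, h4, -⟩ := mem_cand.1 hg
    omega
  have main : ∀ w, nice w → (gf G S w).sum = w ∧ (∀ x ∈ gf G S w, x ∈ G) ∧
      (∀ x ∈ gf G S w, gf G S (w - x) = (gf G S w).erase x) := by
    intro w
    induction w using Nat.strong_induction_on with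
    | _ w ih =>
      intro hw
      by_cases hw0 : w = 0
      · subst hw0
        rw [gf_neg hzero]
        simp
      have hne' := hne w hw hw0
      set g := (cand G S w).max' hne' with hg
      have hgm : g ∈ cand G S w := Finset.max'_mem _ _
      obtain ⟨hgG, hg0, hgw, hgS⟩ := mem_cand.1 hgm
      have heq : gf G S w = g ::ₘ gf G S (w - g) := gf_pos hne'
      obtain ⟨i1, i2, i3⟩ := ih (w - g) (by omega) (hnext w hw g hgm)
      refine ⟨?_, ?_, ?_⟩
      · rw [heq, Multiset.sum_cons, i1]; omega
      · intro x hx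
        rw [heq, Multiset.mem_cons] at hx
        rcases hx with rfl | hx
        · exact hgG
        · exact i2 x hx
      · intro x hx
        by_cases hxg : x = g
        · rw [hxg, heq, Multiset.erase_cons_head]
        rw [heq, Multiset.mem_cons] at hx
        have hx' : x ∈ gf G S (w - g) := hx.resolve_left hxg
        have hxG := i2 x hx'
        have hxle : x ≤ w - g := by
          rw [← i1]
          exact Multiset.single_le_sum (fun _ _ => Nat.zero_le _) x hx'
        have hx0 : 0 < x := by
          have := hG.lo x hxG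
          omega
        have hrem : w - x - g ∈ S := by
          have e1 : x + ((gf G S (w - g)).erase x).sum = w - g := by
            rw [← Multiset.sum_cons, Multiset.cons_erase hx', i1]
          have e2 : ((gf G S (w - g)).erase x).sum ∈ S :=
            sum_mem _ fun z hz => i2 z (Multiset.mem_of_mem_erase hz)
          rw [show w - x - g = ((gf G S (w - g)).erase x).sum by omega]
          exact e2
        have hgc : g ∈ cand G S (w - x) := mem_cand.2 ⟨hgG, hg0, by omega, hrem⟩
        have hne2 : (cand G S (w - x)).Nonempty := ⟨g, hgc⟩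
        have hmax : (cand G S (w - x)).max' hne2 = g := by
          refine le_antisymm ?_ (Finset.le_max' _ _ hgc)
          refine Finset.max'_le _ _ _ fun g' hg' => ?_
          obtain ⟨a1, a2, a3, a4⟩ := mem_cand.1 hg'
          refine Finset.le_max' _ _ (mem_cand.2 ⟨a1, a2, by omega, ?_⟩)
          rw [show w - g' = (w - x - g') + x by omega]
          exact S.add_mem a4 (hGS x hxG)
        rw [gf_pos hne2, hmax, heq, Multiset.erase_cons_tail _ (Ne.symm hxg),
          show w - x - g = w - g - x by omega, i3 x hx']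
  refine ⟨gf G S, fun w hw => ?_⟩
  unfold WW at hw
  rw [Finset.mem_filter, Finset.mem_range] at hw
  obtain ⟨hwc, hA, hD⟩ := hw
  obtain ⟨m1, m2, m3⟩ := main w ⟨hA, Or.inr (Or.inr hD)⟩
  have hw0 : w ≠ 0 := by
    obtain ⟨x, hx, y, hy, hx0, hy0, hxy⟩ := hD
    omega
  refine ⟨?_, m2, m1, ?_⟩
  · by_contra hc
    have hc' : (gf G S w).card = 0 ∨ (gf G S w).card = 1 := by omega
    rcases hc' with h | h
    · rw [Multiset.card_eq_zero] at h
      rw [h] at m1
      exact hw0 m1.symm
    · rw [Multiset.card_eq_one] at h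
      obtain ⟨x, hx⟩ := h
      rw [hx] at m1 m2
      have h3 := m2 x (Multiset.mem_singleton_self x)
      rw [Multiset.sum_singleton] at m1
      rw [m1] at h3
      exact hG.prg w h3 hD
  · intro x hx hcard
    refine ⟨?_, m3 x hx⟩
    have e1 : x + ((gf G S w).erase x).sum = w := by
      rw [← Multiset.sum_cons, Multiset.cons_erase hx, m1]
    have e2 : ((gf G S w).erase x).sum ∈ S :=
      sum_mem _ fun z hz => m2 z (Multiset.mem_of_mem_erase hz)
    have e3 : w - x = ((gf G S w).erase x).sum := by omega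
    have e4 : 2 ≤ ((gf G S w).erase x).card := by
      rw [Multiset.card_erase_of_mem hx]
      simp only [Nat.pred_eq_sub_one]
      omega
    have e5 : Ap m S (w - x) := by
      rw [e3]
      exact (ap5 w _ x hA e2 (hGS x (m2 x hx)) (by omega)).1
    have e6 : Dec S (w - x) := by
      obtain ⟨y, hy⟩ := Multiset.card_pos_iff_exists_mem.1 (by omega : 0 < ((gf G S w).erase x).card)
      have e7 : y + (((gf G S w).erase x).erase y).sum = w - x := by
        rw [← Multiset.sum_cons, Multiset.cons_erase hy, e3]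
      have hyG := m2 y (Multiset.mem_of_mem_erase hy)
      have e8 : 0 < (((gf G S w).erase x).erase y).card := by
        rw [Multiset.card_erase_of_mem hy]
        simp only [Nat.pred_eq_sub_one]
        omega
      obtain ⟨z, hz⟩ := Multiset.card_pos_iff_exists_mem.1 e8
      have hzG := m2 z (Multiset.mem_of_mem_erase (Multiset.mem_of_mem_erase hz))
      have e9 : z ≤ (((gf G S w).erase x).erase y).sum :=
        Multiset.single_le_sum (fun _ _ => Nat.zero_le _) z hz
      have := hG.lo y hyG
      have := hG.lo z hzG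
      refine ⟨y, hGS y hyG, _, sum_mem (((gf G S w).erase x).erase y) fun t ht => m2 t
        (Multiset.mem_of_mem_erase (Multiset.mem_of_mem_erase ht)), by omega, by omega, e7⟩
    unfold WW
    rw [Finset.mem_filter, Finset.mem_range]
    exact ⟨by omega, e5, e6⟩

end Pool.Agent.R112.EN
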