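import Pool.Agent.R112.EN.Stm

namespace Pool.Agent.R112.EN

open Finset

lemma sum_ge (D m : ℕ) (u : Multiset ℕ) (h : ∀ g ∈ u, D * m + 1 ≤ 2 * g) :
    u.card * (D * m + 1) ≤ 2 * u.sum := by
  induction u using Multiset.induction with
  | empty => simp
  | cons a u ih =>
    rw [Multiset.card_cons, Multiset.sum_cons]
    have h1 := ih (fun g hg => h g (Multiset.mem_cons_of_mem hg))
    have h2 := h a (Multiset.mem_cons_self a u)
    nlinarith

lemma pp_low (m c y k D : ℕ) (hm : 0 < m) (U : ℕ) (h1 : y + U < c + m)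
    (h2 : k * (D * m + 1) ≤ 2 * U) : k * D / 2 ≤ pp m c y := by
  unfold pp
  rw [Nat.le_div_iff_mul_le hm]
  have h3 : 2 * (k * D / 2) ≤ k * D := Nat.mul_div_le _ _
  have h4 : 2 * (k * D / 2 * m) ≤ k * (D * m + 1) := by nlinarith
  omega

lemma qq_low (m c k D : ℕ) (hm : 0 < m) (U : ℕ) (h1 : U < c + m)
    (h2 : k * (D * m + 1) ≤ 2 * U) : k * D / 2 ≤ qq m c := by
  unfold qq
  rw [Nat.le_div_iff_mul_le hm]
  have h3 : 2 * (k * D / 2) ≤ k * D := Nat.mul_div_le _ _
  have h4 : 2 * (k * D / 2 * m) ≤ k * (D * m + 1) := by nlinarith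
  omega

lemma core_of (m c : ℕ) (G : Finset ℕ) (δ : ℕ) (hS : Step m c G δ) (F : Finset (Multiset ℕ))
    (hF1 : ∀ s ∈ F, 2 ≤ s.card ∧ (∀ x ∈ s, x ∈ G) ∧ s.sum < c + m)
    (hF2 : ∀ s ∈ F, 3 ≤ s.card → ∀ x ∈ s, s.erase x ∈ F)
    (K : ℕ) (hF3 : (∑ s ∈ F, pp m c s.sum) ≤ K) (D : ℕ) (hD : 2 ≤ D)
    (hDg : ∀ g ∈ G, D * m + 1 ≤ 2 * g) :
    Core G F (fun s => pp m c s.sum) (G.card + 1) D K (qq m c) := by
  refine ⟨⟨fun s hs => ⟨(hF1 s hs).1, (hF1 s hs).2.1⟩, hF2⟩, rfl, ?_, hD, ?_, hF3, ?_⟩
  · have := Finset.card_pos.mpr hS.ne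
    omega
  · intro s hs u hu hsu
    have h1 := hF1 _ hsu
    rw [Multiset.sum_add] at h1
    exact pp_low m c s.sum u.card D hS.g0.hm u.sum h1.2.2
      (sum_ge D m u (fun g hg => hDg g (h1.2.1 g (Multiset.mem_add.mpr (Or.inr hg)))))
  · intro s hs
    have h1 := hF1 _ hs
    exact qq_low m c s.card D hS.g0.hm s.sum h1.2.2
      (sum_ge D m s (fun g hg => hDg g (h1.2.1 g hg)))

lemma main_arith (n xc u q P j b e K k0 k1 SG sx sy w0 w1 R : ℤ) (hn : 0 ≤ n)
    (h0 : 0 ≤ (n + 1) * SG + (n + 1) * k0 - q * w0 + R)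
    (hneg : (n + 1 + 1) * (P + j + SG) + (n + 1 + 1) * k1 - q * w1 + R < 0)
    (hX1 : xc * q ≤ sx + xc * (P + j + 1)) (hSX : sx + sy = SG) (hnu : n = xc + u)
    (hk1 : k0 ≤ k1 + P) (hk2 : K + P ≤ k0) (hw : w1 = w0 + xc + e - b) :
    K + P + 2 * j + q * b - q * e + u * (P + 1 + j) + sy < (P + 1) * n := by
  have h5 : (n + 1 + 1) * k0 ≤ (n + 1 + 1) * (k1 + P) :=
    mul_le_mul_of_nonneg_left hk1 (by linarith)
  subst hw
  subst hSX
  subst hnu
  linarith

set_option maxHeartbeats 1000000 in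
theorem stp (hB : S_B) (hC : S_C) (hV : S_V1) (hE : S_E5) : S_STEP := by
  intro m c G δ hS h0
  by_contra hneg
  push Not at hneg
  obtain ⟨P, j, b, e, X, hXG, hj, hb, he, hbP, hpd, hk1, hk2, hcard, hXq, hed, hXy⟩ := hB m c G δ hS
  obtain ⟨F, hF1, hF2, hF3, hF4⟩ := hC m c G δ hS
  have hm := hS.g0.hm
  have hmc := hS.g0.mc
  have hδG : δ ∉ G := fun h => lt_irrefl _ (hS.lt δ h)
  have hδc : δ < c := hS.g1.hi δ (mem_insert_self _ _)
  obtain ⟨K, hKdef⟩ : ∃ K, ∑ w ∈ WW m c G ∩ WW m c (insert δ G), pp m c w = K := ⟨_, rfl⟩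
  rw [hKdef] at hk2 hF3
  -- the expression of E5 is nonnegative in both cases, contradiction
  have key : ∀ D, 2 ≤ D → (∀ g ∈ G, D * m + 1 ≤ 2 * g) →
      (K + 1 ≤ G.card + 1 ∨ ∃ (P j e : ℕ) (X : Finset ℕ),
        HB G F (fun s => pp m c s.sum) (G.card + 1) D K (qq m c) P j e X) → False := by
    intro D hD hDg hcase
    have hcore := core_of m c G δ hS F hF1 hF2 K hF3 D hD hDg
    have h1 := hE G F (fun s => pp m c s.sum) (G.card + 1) D K (qq m c) hcore hcase
    push_cast at h1
    have h2 := le_trans h1 hF4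
    linarith
  by_cases hKl : K + 1 ≤ G.card + 1
  · exact key 2 le_rfl (fun g hg => by have := hS.g0.lo g hg; omega) (Or.inl hKl)
  · -- comparison
    have hsum : ∑ x ∈ insert δ G, (pp m c x : ℤ) = pp m c δ + ∑ x ∈ G, (pp m c x : ℤ) :=
      Finset.sum_insert hδG
    have hcardi : (insert δ G).card = G.card + 1 := Finset.card_insert_of_notMem hδG
    obtain ⟨SG, hSG⟩ : ∃ SG, ∑ x ∈ G, pp m c x = SG := ⟨_, rfl⟩
    obtain ⟨k0, hk0⟩ : ∃ k0, ∑ w ∈ WW m c G, pp m c w = k0 := ⟨_, rfl⟩
    obtain ⟨k1, hk1'⟩ : ∃ k1, ∑ w ∈ WW m c (insert δ G), pp m c w = k1 := ⟨_, rfl⟩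
    have hSGz : ∑ x ∈ G, (pp m c x : ℤ) = SG := by rw [← hSG]; push_cast; rfl
    have hk0z : ∑ w ∈ WW m c G, (pp m c w : ℤ) = k0 := by rw [← hk0]; push_cast; rfl
    have hk1z : ∑ w ∈ WW m c (insert δ G), (pp m c w : ℤ) = k1 := by rw [← hk1']; push_cast; rfl
    rw [hk0, hk1'] at hk1
    rw [hk0] at hk2
    unfold EE at h0 hneg
    rw [hSGz, hk0z] at h0
    rw [hsum, hSGz, hk1z, hcardi, hpd] at hneg
    -- sum over X
    have hSX : (∑ x ∈ X, pp m c x) + ∑ x ∈ G \ X, pp m c x = SG := by
      rw [← hSG, add_comm]; exact Finset.sum_sdiff hXG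
    have hX1 : X.card * qq m c ≤ (∑ x ∈ X, pp m c x) + X.card * (P + j + 1) := by
      calc X.card * qq m c = ∑ _x ∈ X, qq m c := by rw [sum_const, smul_eq_mul]
        _ ≤ ∑ x ∈ X, (pp m c x + (P + j + 1)) := by
            apply Finset.sum_le_sum; intro x hx; have := hXq x hx; omega
        _ = _ := by rw [sum_add_distrib, sum_const, smul_eq_mul]
    have hXu : X.card + (G \ X).card = G.card := by
      rw [add_comm]; exact Finset.card_sdiff_add_card_eq_card hXG
    obtain ⟨u, hu⟩ : ∃ u, (G \ X).card = u := ⟨_, rfl⟩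
    obtain ⟨xc, hxc⟩ : ∃ xc, X.card = xc := ⟨_, rfl⟩
    obtain ⟨n, hn⟩ : ∃ n, G.card = n := ⟨_, rfl⟩
    obtain ⟨q, hq⟩ : ∃ q, qq m c = q := ⟨_, rfl⟩
    obtain ⟨w0, hw0⟩ : ∃ w0, (WW m c G).card = w0 := ⟨_, rfl⟩
    obtain ⟨w1, hw1⟩ : ∃ w1, (WW m c (insert δ G)).card = w1 := ⟨_, rfl⟩
    obtain ⟨sx, hsx⟩ : ∃ sx, ∑ x ∈ X, pp m c x = sx := ⟨_, rfl⟩
    obtain ⟨sy, hsy⟩ : ∃ sy, ∑ x ∈ G \ X, pp m c x = sy := ⟨_, rfl⟩
    rw [hw0, hw1, hxc] at hcard
    rw [hsx, hsy] at hSX
    rw [hsx, hxc, hq] at hX1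
    rw [hxc, hu, hn] at hXu
    rw [hn, hq, hw0] at h0
    rw [hn, hq, hw1] at hneg
    rw [hn] at hKl
    -- main inequality
    have main : (K : ℤ) + P + 2 * j + q * b - q * e + u * (P + 1 + j) + sy < (P + 1) * n := by
      zify at hcard hXu hX1 hSX hk1 hk2
      push_cast at h0 hneg
      exact main_arith n xc u q P j b e K k0 k1 SG sx sy w0 w1 ((q : ℤ) * m - c) (by positivity)
        (by linarith) (by linarith) hX1 hSX hXu.symm hk1 hk2 (by linarith)
    by_cases hb0 : b = 0
    · have hP0 := hbP hb0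
      subst hb0; subst hP0
      rcases Nat.eq_zero_or_pos e with he0 | he0
      · subst he0
        push_cast at main
        have hu0 : (0:ℤ) ≤ u * (0 + 1 + j) := by positivity
        have : (0:ℤ) ≤ sy := by positivity
        have h7 : (n : ℤ) + 1 ≤ K := by
          have : n + 1 ≤ K := by omega
          exact_mod_cast this
        linarith
      · have he1 : e = 1 := by omega
        subst he1
        have h8 := hV m c hm hmc {δ, δ} (by simp) (by simp; have := hed rfl; omega)
        simp at h8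
        rw [hpd, hq] at h8
        have hvv : vv m c (δ + δ) ≤ 1 := by unfold vv; split <;> omega
        have h9 : q ≤ 2 * j + 1 := by omega
        zify at h9
        push_cast at main
        have hu0 : (0:ℤ) ≤ u * (0 + 1 + j) := by positivity
        have : (0:ℤ) ≤ sy := by positivity
        have h7 : (n : ℤ) + 1 ≤ K := by
          have : n + 1 ≤ K := by omega
          exact_mod_cast this
        linarith
    · have hb1 : b = 1 := by omega
      subst hb1
      have hqe : (q : ℤ) * e ≤ q := by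
        have : (e : ℤ) ≤ 1 := by exact_mod_cast he
        exact mul_le_of_le_one_right (Int.natCast_nonneg q) this
      by_cases hP0 : P = 0
      · subst hP0
        push_cast at main
        have hu0 : (0:ℤ) ≤ u * (0 + 1 + j) := by positivity
        have : (0:ℤ) ≤ sy := by positivity
        have h7 : (n : ℤ) + 1 ≤ K := by
          have : n + 1 ≤ K := by omega
          exact_mod_cast this
        linarith
      · have hP1 : 1 ≤ P := by omega
        apply key (P + j) (by omega)
        · intro g hg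
          have h10 := hS.big g hg
          have h11 : (P + j) * m ≤ c - δ + m - 1 := by
            rw [← hpd]; unfold pp; exact Nat.div_mul_le_self _ _
          omega
        · right
          refine ⟨P, j, e, X, hP1, hj, rfl, he, hXG, ?_, ?_, ?_⟩
          · rw [hn, hq, hu]
            have h12 : n + 1 - 1 = n := by omega
            rw [h12]
            zify
            have h13 : (((1 - e : ℕ) : ℤ)) = 1 - e := by omega
            rw [h13]
            push_cast at main
            have : (0:ℤ) ≤ sy := by positivity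
            linarith
          · intro x hx s hs hxs
            have := (hF1 _ hxs).2.2
            rw [Multiset.sum_cons] at this
            exact hXy x hx s.sum (by omega)
          · intro he1 s hs
            by_contra h4
            push Not at h4
            have h14 := hF1 s hs
            have h15 := hed he1
            have h16 : s.card * (c + m - δ) ≤ 2 * s.sum := by
              have : ∀ u : Multiset ℕ, (∀ g ∈ u, g ∈ G) → u.card * (c + m - δ) ≤ 2 * u.sum := by
                intro u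
                induction u using Multiset.induction with
                | empty => simp
                | cons a u ih =>
                  intro hu
                  rw [Multiset.card_cons, Multiset.sum_cons]
                  have i1 := ih (fun g hg => hu g (Multiset.mem_cons_of_mem hg))
                  have i2 := hS.big a (hu a (Multiset.mem_cons_self a u))
                  have i3 : c + m - δ ≤ 2 * a := by omega
                  rw [Nat.add_mul, one_mul, Nat.mul_add]
                  omega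
              exact this s h14.2.1
            have h17 : 4 * (c + m - δ) ≤ s.card * (c + m - δ) := Nat.mul_le_mul_right _ h4
            omega

end Pool.Agent.R112.EN
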