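import Pool.Agent.R112.EN.Stm

/-!
Project EN, pieces V1 and V2.
-/

namespace Pool.Agent.R112.EN

open Finset

namespace V

lemma rho_facts (m c : ℕ) (hm : 0 < m) :
    ∃ r, qq m c * m = c + r ∧ r < m ∧ qq m c * m - c = r := by
  have h1 : (c + m - 1) / m * m + (c + m - 1) % m = c + m - 1 := by
    have := Nat.div_add_mod (c + m - 1) m
    rw [mul_comm] at this
    exact this
  have h2 : (c + m - 1) % m < m := Nat.mod_lt _ hm
  unfold qq
  refine ⟨(c + m - 1) / m * m - c, ?_, ?_, rfl⟩ <;> omega

lemma pp_eq (m c : ℕ) (hm : 0 < m) (r : ℕ) (hr : qq m c * m = c + r) (hrm : r < m)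
    (y : ℕ) (hy : y < c + m) : pp m c y + (y + r) / m = qq m c := by
  have h1 : m * ((y + r) / m) + (y + r) % m = y + r := Nat.div_add_mod (y + r) m
  have h2 : (y + r) % m < m := Nat.mod_lt _ hm
  set d := (y + r) / m with hd
  set e := (y + r) % m with he
  set q := qq m c with hq
  unfold pp
  rcases Nat.lt_or_ge y c with h | h
  · have hdq : d < q + 1 := by
      by_contra hcon
      have h3 : q + 1 ≤ d := by omega
      have h4 : m * (q + 1) ≤ m * d := Nat.mul_le_mul_left _ h3
      have h5 : m * (q + 1) = q * m + m := by ring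
      omega
    have hdq' : d ≤ q := by omega
    obtain ⟨k, hk⟩ := Nat.exists_eq_add_of_le hdq'
    have h6 : c - y + m - 1 = m * k + (m - 1 - e) := by
      have h7 : q * m = m * d + m * k := by rw [hk]; ring
      omega
    have h8 : (c - y + m - 1) / m = k := by
      rw [h6]
      rw [Nat.mul_add_div hm]
      rw [Nat.div_eq_of_lt (by omega)]
      rfl
    rw [h8]
    omega
  · have h3 : c - y + m - 1 = m - 1 := by omega
    rw [h3, Nat.div_eq_of_lt (by omega)]
    have h4 : d = q := by
      apply le_antisymm
      · by_contra hcon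
        have h5 : q + 1 ≤ d := by omega
        have h6 : m * (q + 1) ≤ m * d := Nat.mul_le_mul_left _ h5
        have h7 : m * (q + 1) = q * m + m := by ring
        omega
      · by_contra hcon
        have h5 : d + 1 ≤ q := by omega
        have h6 : m * (d + 1) ≤ m * q := Nat.mul_le_mul_left _ h5
        have h7 : m * (d + 1) = m * d + m := by ring
        have h8 : m * q = q * m := mul_comm _ _
        omega
    omega

lemma sum_sub (w : ℕ) (s : Multiset ℕ) (h : ∀ x ∈ s, x ≤ w) :
    (s.map (fun x => w - x)).sum + s.sum = s.card * w := by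
  induction s using Multiset.induction_on with
  | empty => simp
  | cons a s ih =>
    have h1 := ih (fun x hx => h x (Multiset.mem_cons_of_mem hx))
    have h2 := h a (Multiset.mem_cons_self a s)
    simp only [Multiset.map_cons, Multiset.sum_cons, Multiset.card_cons]
    have h3 : (s.card + 1) * w = s.card * w + w := by ring
    omega

lemma sum_pp (m c : ℕ) (hm : 0 < m) (r : ℕ) (hr : qq m c * m = c + r) (hrm : r < m)
    (w : ℕ) (hw : w < c + m) (s : Multiset ℕ) :
    (s.map (fun x => pp m c (w - x))).sum + (s.map (fun x => (w - x + r) / m)).sum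
      = s.card * qq m c := by
  induction s using Multiset.induction_on with
  | empty => simp
  | cons a s ih =>
    have h2 := pp_eq m c hm r hr hrm (w - a) (by omega)
    simp only [Multiset.map_cons, Multiset.sum_cons, Multiset.card_cons]
    have h3 : (s.card + 1) * qq m c = s.card * qq m c + qq m c := by ring
    omega

lemma sum_div (m r w : ℕ) (s : Multiset ℕ) :
    m * (s.map (fun x => (w - x + r) / m)).sum ≤ (s.map (fun x => w - x)).sum + s.card * r := by
  induction s using Multiset.induction_on with
  | empty => simp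
  | cons a s ih =>
    simp only [Multiset.map_cons, Multiset.sum_cons, Multiset.card_cons]
    have h3 : (s.card + 1) * r = s.card * r + r := by ring
    have h4 : m * ((w - a + r) / m) ≤ w - a + r := Nat.mul_div_le _ _
    rw [mul_add]
    omega

end V

open V in
theorem v1 : S_V1 := by
  intro m c hm hmc s hs hsum
  obtain ⟨r, hr, hrm, hre⟩ := rho_facts m c hm
  have hle : ∀ x ∈ s, x ≤ s.sum := fun x hx => Multiset.le_sum_of_mem hx
  have h1 := sum_sub s.sum s hle
  have h2 := sum_pp m c hm r hr hrm s.sum hsum s
  have h3 := sum_div m r s.sum s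
  have h4 := pp_eq m c hm r hr hrm s.sum hsum
  have h5 : m * ((s.sum + r) / m) + (s.sum + r) % m = s.sum + r := Nat.div_add_mod _ m
  have h6 : (s.sum + r) % m < m := Nat.mod_lt _ hm
  unfold vv
  rw [hre]
  set w := s.sum with hw
  set n := s.card with hn
  set d := (w + r) / m with hd
  set e := (w + r) % m with he
  set q := qq m c with hq
  set DD := (s.map (fun x => (w - x + r) / m)).sum with hDD
  set PP := (s.map (fun x => pp m c (w - x))).sum with hPP
  set SS := (s.map (fun x => w - x)).sum with hSS
  obtain ⟨k, hk⟩ := Nat.exists_eq_add_of_le hs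
  -- n = 2 + k
  have hn1 : n - 1 = k + 1 := by omega
  have hn2 : n - 2 = k := by omega
  rw [hn1, hn2]
  -- m * DD ≤ (k+1) * (m d + e) + r
  have h7 : m * DD ≤ (k + 1) * (m * d + e) + r := by
    have e1 : n * w = (k + 1) * w + w := by rw [hk]; ring
    have e2 : n * r = (k + 1) * r + r := by rw [hk]; ring
    have e3 : (k + 1) * (m * d + e) = (k + 1) * w + (k + 1) * r := by rw [h5]; ring
    omega
  have e4 : n * q = (k + 1) * q + q := by rw [hk]; ring
  have e5 : (k + 1) * pp m c w + (k + 1) * d = (k + 1) * q := by rw [← h4]; ring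
  split_ifs with hv
  · have h8 : DD < (k + 1) * d + (k + 2) := by
      have h9 : m * DD < m * ((k + 1) * d + (k + 2)) := by
        have e6 : (k + 1) * e ≤ (k + 1) * m := Nat.mul_le_mul_left _ h6.le
        have e7 : m * ((k + 1) * d + (k + 2)) = (k + 1) * (m * d) + ((k + 1) * m + m) := by ring
        have e8 : (k + 1) * (m * d + e) = (k + 1) * (m * d) + (k + 1) * e := by ring
        omega
      exact lt_of_mul_lt_mul_left h9 (Nat.zero_le m)
    omega
  · have h8 : DD < (k + 1) * d + (k + 1) := by
      have h9 : m * DD < m * ((k + 1) * d + (k + 1)) := by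
        have e6 : k * e ≤ k * m := Nat.mul_le_mul_left _ h6.le
        have e7 : m * ((k + 1) * d + (k + 1)) = (k + 1) * (m * d) + (k * m + m) := by ring
        have e8 : (k + 1) * (m * d + e) = (k + 1) * (m * d) + (k * e + e) := by ring
        omega
      exact lt_of_mul_lt_mul_left h9 (Nat.zero_le m)
    omega

open V in
theorem v2 : S_V2 := by
  intro m c hm hmc W hW
  obtain ⟨r, hr, hrm, hre⟩ := rho_facts m c hm
  unfold vv
  rw [hre, ← Finset.card_filter]
  have h1 : (W.filter (fun w => m ≤ (w + r) % m + r)).card ≤ (Finset.Ico (m - r) m).card := by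
    apply Finset.card_le_card_of_injOn (fun w => (w + r) % m)
    · intro w hw
      rw [Finset.mem_coe, Finset.mem_filter] at hw
      rw [Finset.mem_coe, Finset.mem_Ico]
      have h3 := Nat.mod_lt (w + r) hm
      have h4 := hw.2
      show m - r ≤ (w + r) % m ∧ (w + r) % m < m
      omega
    · intro x hx y hy hxy
      rw [Finset.mem_coe, Finset.mem_filter] at hx hy
      apply hW x hx.1 y hy.1
      exact Nat.ModEq.add_right_cancel' r hxy
  rw [Nat.card_Ico] at h1
  omega

end Pool.Agent.R112.EN
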